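import Pool.Agent.SqzC4.Spec

/-!
# Local defining functions

Comparison of two local defining functions (first order and Levi form), and the gluing of local
defining functions to a global one.
-/

set_option autoImplicit false

open Metric Set Filter Topology
open scoped ContDiff Manifold

namespace SqzC4

/-! ### one variable -/

/-- Second order test with strict sign. -/
theorem neg_of_deriv2 {h h' : ℝ → ℝ} {c : ℝ} (h0 : h 0 = 0) (h'0 : h' 0 = 0)
    (hd : ∀ᶠ t in 𝓝 (0 : ℝ), HasDerivAt h (h' t) t) (hd2 : HasDerivAt h' c 0) (hc : c < 0) :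
    ∀ᶠ t in 𝓝[>] (0 : ℝ), h t < 0 := by
  have h1 : ∀ᶠ t in 𝓝[≠] (0 : ℝ), slope h' 0 t < 0 :=
    (hasDerivAt_iff_tendsto_slope.1 hd2).eventually_lt_const hc
  have h2 : ∀ᶠ t in 𝓝 (0 : ℝ), t ≠ 0 → slope h' 0 t < 0 := by
    rw [eventually_nhdsWithin_iff] at h1
    exact h1
  obtain ⟨ε, hε, hball⟩ := Metric.eventually_nhds_iff_ball.1 (hd.and h2)
  have hneg : ∀ t : ℝ, 0 < t → t < ε → h' t < 0 := by
    intro t ht1 ht2
    have h3 := (hball t (by rw [mem_ball, Real.dist_eq, sub_zero, abs_of_pos ht1]; exact ht2)).2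
      ht1.ne'
    rw [slope_def_field, h'0, sub_zero, sub_zero] at h3
    by_contra hcon
    push Not at hcon
    exact absurd h3 (not_lt.2 (div_nonneg hcon ht1.le))
  filter_upwards [Ioo_mem_nhdsGT hε] with t ht
  have hdiff : ∀ x ∈ Icc (0 : ℝ) t, HasDerivAt h (h' x) x := by
    intro x hx
    refine (hball x ?_).1
    rw [mem_ball, Real.dist_eq, sub_zero, abs_of_nonneg hx.1]
    exact hx.2.trans_lt ht.2
  have hanti : StrictAntiOn h (Icc 0 t) := by
    refine strictAntiOn_of_deriv_neg (convex_Icc 0 t)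
      (fun x hx => (hdiff x hx).continuousAt.continuousWithinAt) ?_
    intro x hx
    rw [interior_Icc] at hx
    rw [(hdiff x ⟨hx.1.le, hx.2.le⟩).deriv]
    exact hneg x hx.1 (hx.2.trans ht.2)
  have := hanti (left_mem_Icc.2 ht.1.le) (right_mem_Icc.2 ht.1.le) ht.1
  rwa [h0] at this

/-- The first order version. -/
theorem neg_of_deriv1 {h : ℝ → ℝ} {c : ℝ} (h0 : h 0 = 0) (hd : HasDerivAt h c 0) (hc : c < 0) :
    ∀ᶠ t in 𝓝[>] (0 : ℝ), h t < 0 := by
  have h1 : ∀ᶠ t in 𝓝[≠] (0 : ℝ), slope h 0 t < 0 :=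
    (hasDerivAt_iff_tendsto_slope.1 hd).eventually_lt_const hc
  have h2 : ∀ᶠ t in 𝓝[>] (0 : ℝ), slope h 0 t < 0 :=
    h1.filter_mono (nhdsWithin_mono _ (fun x hx => (ne_of_gt hx)))
  filter_upwards [h2, self_mem_nhdsWithin] with t ht ht0
  have ht0' : (0 : ℝ) < t := ht0
  rw [slope_def_field, h0, sub_zero, sub_zero] at ht
  by_contra hcon
  push Not at hcon
  exact absurd ht (not_lt.2 (div_nonneg hcon ht0'.le))

theorem le_of_deriv1 {h : ℝ → ℝ} {c : ℝ} (h0 : h 0 = 0) (hd : HasDerivAt h c 0)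
    (hn : ∀ᶠ t in 𝓝[>] (0 : ℝ), h t ≤ 0) : c ≤ 0 := by
  by_contra hcon
  push Not at hcon
  have h1 : HasDerivAt (fun t => - h t) (-c) 0 := hd.neg
  have h2 := neg_of_deriv1 (by simp [h0]) h1 (by linarith)
  obtain ⟨t, ht1, ht2⟩ := (hn.and h2).exists
  linarith

theorem le_of_deriv2 {h h' : ℝ → ℝ} {c : ℝ} (h0 : h 0 = 0) (h'0 : h' 0 = 0)
    (hd : ∀ᶠ t in 𝓝 (0 : ℝ), HasDerivAt h (h' t) t) (hd2 : HasDerivAt h' c 0)
    (hn : ∀ᶠ t in 𝓝[>] (0 : ℝ), h t ≤ 0) : c ≤ 0 := by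
  by_contra hcon
  push Not at hcon
  have h2 := neg_of_deriv2 (h := fun t => - h t) (h' := fun t => - h' t) (c := -c)
    (by simp [h0]) (by simp [h'0]) (hd.mono fun t ht => ht.neg) hd2.neg (by linarith)
  obtain ⟨t, ht1, ht2⟩ := (hn.and h2).exists
  linarith

/-! ### local defining functions -/

section compare

variable {n : ℕ} {Ω : Set (E n)} {p : E n} {U U₁ U₂ : Set (E n)} {ρ ρ₁ ρ₂ : E n → ℝ}

theorem LocDef.of_le {k l : ℕ} (h : LocDef k Ω p U ρ) (hl : l ≤ k) : LocDef l Ω p U ρ :=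
  ⟨h.isOpen, h.mem, h.smooth.of_le (by exact_mod_cast hl), h.grad, h.iff⟩

theorem LocDef.nhds {k : ℕ} (h : LocDef k Ω p U ρ) : U ∈ 𝓝 p := h.isOpen.mem_nhds h.mem

theorem LocDef.zero (h : LocDef 2 Ω p U ρ) (ho : IsOpen Ω) (hp : p ∈ frontier Ω) : ρ p = 0 := by
  have hpΩ : p ∉ Ω := by
    rw [ho.frontier_eq] at hp
    exact hp.2
  have h1 : 0 ≤ ρ p := by
    by_contra hcon
    push Not at hcon
    exact hpΩ ((h.iff p h.mem).2 hcon)
  have hc : ContinuousAt ρ p := h.smooth.continuousOn.continuousAt h.nhds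
  refine le_antisymm ?_ h1
  by_contra hcon
  push Not at hcon
  have h2 : ∀ᶠ x in 𝓝 p, 0 < ρ x := hc.eventually_const_lt hcon
  have h3 := (mem_closure_iff_nhds.1 (frontier_subset_closure hp)) _ (h2.and h.nhds)
  obtain ⟨x, ⟨hx1, hx2⟩, hx3⟩ := h3
  exact absurd ((h.iff x hx2).1 hx3) (not_lt.2 (le_of_lt hx1))

theorem LocDef.fderiv_at (h : LocDef 2 Ω p U ρ) {x : E n} (hx : x ∈ U) :
    HasFDerivAt ρ (fderiv ℝ ρ x) x :=
  ((h.smooth.differentiableOn (by norm_num)).differentiableAt (h.isOpen.mem_nhds hx)).hasFDerivAt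

theorem LocDef.fderiv2 (h : LocDef 2 Ω p U ρ) :
    HasFDerivAt (fderiv ℝ ρ) (fderiv ℝ (fderiv ℝ ρ) p) p := by
  have h1 : ContDiffAt ℝ 2 ρ p := h.smooth.contDiffAt h.nhds
  have h2 : ContDiffAt ℝ 1 (fderiv ℝ ρ) p := h1.fderiv_right (by norm_num)
  exact (h2.differentiableAt (by norm_num)).hasFDerivAt

/-- Directions into `Ω`. -/
theorem LocDef.first (h : LocDef 2 Ω p U ρ) (v : E n) :
    HasDerivAt (fun t : ℝ => ρ (p + t • v)) (fderiv ℝ ρ p v) 0 := by
  have h1 : HasDerivAt (fun t : ℝ => p + t • v) v 0 := by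
    simpa using ((hasDerivAt_id (0 : ℝ)).smul_const v).const_add p
  have h2 : HasFDerivAt ρ (fderiv ℝ ρ p) (p + (0 : ℝ) • v) := by
    rw [zero_smul, add_zero]
    exact h.fderiv_at h.mem
  exact h2.comp_hasDerivAt (0 : ℝ) h1

theorem LocDef.le_of_neg (h₁ : LocDef 2 Ω p U₁ ρ₁) (h₂ : LocDef 2 Ω p U₂ ρ₂) (ho : IsOpen Ω)
    (hp : p ∈ frontier Ω) {v : E n} (hv : fderiv ℝ ρ₁ p v < 0) : fderiv ℝ ρ₂ p v ≤ 0 := by
  have hc : Tendsto (fun t : ℝ => p + t • v) (𝓝[>] 0) (𝓝 p) := by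
    have : Continuous (fun t : ℝ => p + t • v) := by fun_prop
    have h3 := (this.tendsto 0).mono_left (nhdsWithin_le_nhds (s := Ioi (0 : ℝ)))
    simpa using h3
  have h3 := neg_of_deriv1 (h := fun t : ℝ => ρ₁ (p + t • v))
    (by simpa using h₁.zero ho hp) (h₁.first v) hv
  refine le_of_deriv1 (h := fun t : ℝ => ρ₂ (p + t • v)) (by simpa using h₂.zero ho hp)
    (h₂.first v) ?_
  filter_upwards [h3, hc h₁.nhds, hc h₂.nhds] with t ht1 ht2 ht3
  exact ((h₂.iff _ ht3).1 ((h₁.iff _ ht2).2 ht1)).le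

theorem LocDef.compare₁ (h₁ : LocDef 2 Ω p U₁ ρ₁) (h₂ : LocDef 2 Ω p U₂ ρ₂) (ho : IsOpen Ω)
    (hp : p ∈ frontier Ω) : ∃ (e : E n) (c : ℝ), 0 < c ∧ fderiv ℝ ρ₁ p e = 1 ∧
      fderiv ℝ ρ₂ p e = c ∧ ∀ w : E n, fderiv ℝ ρ₂ p w = c * fderiv ℝ ρ₁ p w := by
  obtain ⟨e₀, he₀⟩ : ∃ e, fderiv ℝ ρ₁ p e ≠ 0 := by
    by_contra hcon
    push Not at hcon
    exact h₁.grad (ContinuousLinearMap.ext hcon)
  set e : E n := (fderiv ℝ ρ₁ p e₀)⁻¹ • e₀ with he
  have he1 : fderiv ℝ ρ₁ p e = 1 := by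
    rw [he, map_smul, smul_eq_mul, inv_mul_cancel₀ he₀]
  set c := fderiv ℝ ρ₂ p e with hc
  have hker : ∀ w : E n, fderiv ℝ ρ₁ p w = 0 → fderiv ℝ ρ₂ p w = 0 := by
    intro w hw
    have key : ∀ s ε : ℝ, 0 < ε → s * fderiv ℝ ρ₂ p w ≤ ε * c := by
      intro s ε hε
      have := h₁.le_of_neg h₂ ho hp (v := s • w - ε • e) (by
        rw [map_sub, map_smul, map_smul, hw, he1, smul_zero, smul_eq_mul]; linarith)
      rw [map_sub, map_smul, map_smul, smul_eq_mul, smul_eq_mul] at this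
      linarith
    have hb : ∀ s : ℝ, s * fderiv ℝ ρ₂ p w ≤ 0 := by
      intro s
      refine le_of_forall_pos_le_add fun δ hδ => ?_
      rw [zero_add]
      have hpos : 0 < |c| + 1 := by positivity
      refine (key s (δ / (|c| + 1)) (by positivity)).trans ?_
      calc δ / (|c| + 1) * c ≤ δ / (|c| + 1) * (|c| + 1) := by
            have := le_abs_self c
            gcongr
            linarith
        _ = δ := by field_simp
    have h1 := hb 1
    have h2 := hb (-1)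
    linarith
  have hlin : ∀ w : E n, fderiv ℝ ρ₂ p w = c * fderiv ℝ ρ₁ p w := by
    intro w
    have h1 := hker (w - fderiv ℝ ρ₁ p w • e) (by
      rw [map_sub, map_smul, he1, smul_eq_mul, mul_one, sub_self])
    rw [map_sub, map_smul, smul_eq_mul] at h1
    linarith
  have hc0 : c ≠ 0 := by
    intro h0
    apply h₂.grad
    ext w
    rw [hlin w, h0, zero_mul]
    simp
  have hcn : 0 ≤ c := by
    have := h₁.le_of_neg h₂ ho hp (v := -e) (by rw [map_neg, he1]; norm_num)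
    rw [map_neg] at this
    linarith
  exact ⟨e, c, lt_of_le_of_ne hcn hc0.symm, he1, hc.symm, hlin⟩

/-- Second order expansion along a parabola. -/
theorem LocDef.second (h : LocDef 2 Ω p U ρ) (ho : IsOpen Ω) (hp : p ∈ frontier Ω)
    {w e : E n} (hw : fderiv ℝ ρ p w = 0) :
    ∃ h' : ℝ → ℝ, h' 0 = 0 ∧
      (∀ᶠ t in 𝓝 (0 : ℝ), HasDerivAt (fun t : ℝ => ρ (p + t • w + t ^ 2 • e)) (h' t) t) ∧
      HasDerivAt h' (fderiv ℝ (fderiv ℝ ρ) p w w + 2 * fderiv ℝ ρ p e) 0 := by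
  have hcont : Continuous (fun t : ℝ => p + t • w + t ^ 2 • e) := by fun_prop
  have hx0 : p + (0 : ℝ) • w + (0 : ℝ) ^ 2 • e = p := by simp
  have hpath : ∀ t : ℝ, HasDerivAt (fun t : ℝ => p + t • w + t ^ 2 • e)
      (w + (2 * t) • e) t := by
    intro t
    have h1 := (((hasDerivAt_id t).smul_const w).const_add p).add
      ((hasDerivAt_pow 2 t).smul_const e)
    refine h1.congr_deriv ?_
    simp
  refine ⟨fun t => fderiv ℝ ρ (p + t • w + t ^ 2 • e) (w + (2 * t) • e), ?_, ?_, ?_⟩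
  · simpa using hw
  · have : ∀ᶠ t in 𝓝 (0 : ℝ), p + t • w + t ^ 2 • e ∈ U := by
      have h1 := hcont.tendsto 0
      rw [hx0] at h1
      exact h1 h.nhds
    filter_upwards [this] with t ht
    exact (h.fderiv_at ht).comp_hasDerivAt t (hpath t)
  · have h2 : HasFDerivAt (fderiv ℝ ρ) (fderiv ℝ (fderiv ℝ ρ) p)
        (p + (0 : ℝ) • w + (0 : ℝ) ^ 2 • e) := by
      rw [hx0]
      exact h.fderiv2
    have h3 := h2.comp_hasDerivAt (0 : ℝ) (hpath 0)
    have h4 : HasDerivAt (fun t : ℝ => w + (2 * t) • e) ((2 : ℝ) • e) 0 := by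
      have h5 := (((hasDerivAt_id (0 : ℝ)).const_mul (2 : ℝ)).smul_const e).const_add w
      simpa using h5
    refine (h3.clm_apply h4).congr_deriv ?_
    simp

theorem LocDef.compare₂_le (h₁ : LocDef 2 Ω p U₁ ρ₁) (h₂ : LocDef 2 Ω p U₂ ρ₂)
    (ho : IsOpen Ω) (hp : p ∈ frontier Ω) {e : E n} {c : ℝ} (hc : 0 < c)
    (he1 : fderiv ℝ ρ₁ p e = 1) (hlin : ∀ w : E n, fderiv ℝ ρ₂ p w = c * fderiv ℝ ρ₁ p w)
    {w : E n} (hw : fderiv ℝ ρ₁ p w = 0) :
    fderiv ℝ (fderiv ℝ ρ₂) p w w ≤ c * fderiv ℝ (fderiv ℝ ρ₁) p w w := by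
  set A₁ := fderiv ℝ (fderiv ℝ ρ₁) p w w with hA₁
  set A₂ := fderiv ℝ (fderiv ℝ ρ₂) p w w with hA₂
  have key : ∀ s : ℝ, A₁ + 2 * s < 0 → A₂ + 2 * (c * s) ≤ 0 := by
    intro s hs
    obtain ⟨g₁, hg1, hg2, hg3⟩ := h₁.second ho hp (w := w) (e := s • e) hw
    obtain ⟨g₂, hg4, hg5, hg6⟩ := h₂.second ho hp (w := w) (e := s • e) (by rw [hlin, hw, mul_zero])
    rw [map_smul, he1, smul_eq_mul, mul_one, ← hA₁] at hg3
    rw [map_smul, hlin, he1, smul_eq_mul, mul_one, ← hA₂] at hg6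
    have hneg := neg_of_deriv2 (by simpa using h₁.zero ho hp) hg1 hg2 hg3 hs
    have hc' : Tendsto (fun t : ℝ => p + t • w + t ^ 2 • (s • e)) (𝓝[>] 0) (𝓝 p) := by
      have : Continuous (fun t : ℝ => p + t • w + t ^ 2 • (s • e)) := by fun_prop
      have h3 := (this.tendsto 0).mono_left (nhdsWithin_le_nhds (s := Ioi (0 : ℝ)))
      simpa using h3
    have := le_of_deriv2 (by simpa using h₂.zero ho hp) hg4 hg5 hg6 (by
      filter_upwards [hneg, hc' h₁.nhds, hc' h₂.nhds] with t ht1 ht2 ht3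
      exact ((h₂.iff _ ht3).1 ((h₁.iff _ ht2).2 ht1)).le)
    linarith [mul_comm s c]
  refine le_of_forall_pos_le_add fun δ hδ => ?_
  have h1 := key (-A₁ / 2 - δ / (2 * c)) (by
    have : 0 < δ / (2 * c) := by positivity
    linarith)
  have h2 : 2 * (c * (-A₁ / 2 - δ / (2 * c))) = - (c * A₁) - δ := by
    field_simp
  linarith

/-- Two local defining functions have positively proportional Levi forms. -/
theorem LocDef.compare (h₁ : LocDef 2 Ω p U₁ ρ₁) (h₂ : LocDef 2 Ω p U₂ ρ₂) (ho : IsOpen Ω)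
    (hp : p ∈ frontier Ω) : ∃ c : ℝ, 0 < c ∧
      (∀ w : E n, fderiv ℝ ρ₂ p w = c * fderiv ℝ ρ₁ p w) ∧
      ∀ w : E n, fderiv ℝ ρ₁ p w = 0 → fderiv ℝ ρ₁ p (Complex.I • w) = 0 →
        Lev ρ₂ p w = c * Lev ρ₁ p w := by
  obtain ⟨e, c, hc, he1, he2, hlin⟩ := h₁.compare₁ h₂ ho hp
  refine ⟨c, hc, hlin, ?_⟩
  have hlin' : ∀ w : E n, fderiv ℝ ρ₁ p w = c⁻¹ * fderiv ℝ ρ₂ p w := by
    intro w
    rw [hlin w, ← mul_assoc, inv_mul_cancel₀ hc.ne', one_mul]
  have hec : fderiv ℝ ρ₂ p (c⁻¹ • e) = 1 := by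
    rw [map_smul, he2, smul_eq_mul, inv_mul_cancel₀ hc.ne']
  have key : ∀ w : E n, fderiv ℝ ρ₁ p w = 0 →
      fderiv ℝ (fderiv ℝ ρ₂) p w w = c * fderiv ℝ (fderiv ℝ ρ₁) p w w := by
    intro w hw
    refine le_antisymm (h₁.compare₂_le h₂ ho hp hc he1 hlin hw) ?_
    have := h₂.compare₂_le h₁ ho hp (inv_pos.2 hc) hec hlin' (w := w) (by
      rw [hlin, hw, mul_zero])
    calc c * fderiv ℝ (fderiv ℝ ρ₁) p w w
        ≤ c * (c⁻¹ * fderiv ℝ (fderiv ℝ ρ₂) p w w) := by gcongr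
      _ = _ := by rw [← mul_assoc, mul_inv_cancel₀ hc.ne', one_mul]
  intro w hw hIw
  rw [Lev, Lev, key w hw, key _ hIw, mul_add]

end compare

/-! ### gluing -/

theorem exists_global {n : ℕ} {Ω : Set (E n)} (ho : IsOpen Ω) (hC : BoundaryOfClass 4 Ω) :
    ∃ ρ : E n → ℝ, ContDiff ℝ 4 ρ ∧ Ω = {x | ρ x < 0} ∧
      ∀ p ∈ frontier Ω, fderiv ℝ ρ p ≠ 0 := by
  classical
  choose! V₀ r hVr₀ using hC
  set V : E n → Set (E n) := fun x => V₀ x ∩ (fderiv ℝ (r x)) ⁻¹' {0}ᶜ with hV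
  have hVo : ∀ x ∈ frontier Ω, IsOpen (V x) := by
    intro x hx
    refine ContinuousOn.isOpen_inter_preimage ?_ (hVr₀ x hx).isOpen isOpen_compl_singleton
    exact (hVr₀ x hx).smooth.continuousOn_fderiv_of_isOpen (hVr₀ x hx).isOpen (by norm_num)
  have hVr : ∀ x ∈ frontier Ω, ∀ y ∈ V x, LocDef 4 Ω y (V x) (r x) := by
    intro x hx y hy
    exact ⟨hVo x hx, hy, (hVr₀ x hx).smooth.mono inter_subset_left, hy.2,
      fun z hz => (hVr₀ x hx).iff z hz.1⟩
  have hVm : ∀ x ∈ frontier Ω, x ∈ V x := fun x hx => ⟨(hVr₀ x hx).mem, (hVr₀ x hx).grad⟩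
  -- the cover
  set U : E n → Set (E n) := fun x =>
    if x ∈ frontier Ω then V x else if x ∈ Ω then Ω else (closure Ω)ᶜ with hU
  set g : E n → E n → ℝ := fun x =>
    if x ∈ frontier Ω then r x else if x ∈ Ω then (fun _ => -1) else (fun _ => 1) with hg
  have hUo : ∀ i, IsOpen (U i) := by
    intro i
    simp only [hU]
    split_ifs with h1 h2
    · exact hVo i h1
    · exact ho
    · exact isClosed_closure.isOpen_compl
  have hUm : ∀ x, x ∈ U x := by
    intro x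
    simp only [hU]
    split_ifs with h1 h2
    · exact hVm x h1
    · exact h2
    · intro h3
      apply h1
      rw [ho.frontier_eq]
      exact ⟨h3, h2⟩
  have hgs : ∀ i, ContDiffOn ℝ 4 (g i) (U i) := by
    intro i
    simp only [hU, hg]
    split_ifs with h1 h2
    · exact (hVr i h1 i (hVm i h1)).smooth
    · exact contDiffOn_const
    · exact contDiffOn_const
  have hgi : ∀ i, ∀ x ∈ U i, (x ∈ Ω ↔ g i x < 0) := by
    intro i x hx
    simp only [hU] at hx
    simp only [hg]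
    split_ifs at hx ⊢ with h1 h2
    · exact (hVr i h1 i (hVm i h1)).iff x hx
    · exact ⟨fun _ => by norm_num, fun _ => hx⟩
    · exact ⟨fun h => absurd (subset_closure h) hx, fun h => by norm_num at h⟩
  obtain ⟨f, hf⟩ := SmoothPartitionOfUnity.exists_isSubordinate (ι := E n) (M := E n)
    𝓘(ℝ, E n) isClosed_univ U hUo (fun x _ => mem_iUnion.2 ⟨x, hUm x⟩)
  have hfU : ∀ i x, f i x ≠ 0 → x ∈ U i := fun i x hx => hf i (subset_tsupport _ hx)
  set ρ : E n → ℝ := fun x => ∑ᶠ i, f i x • g i x with hρ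
  have hρs : ContDiff ℝ 4 ρ := by
    rw [← contMDiff_iff_contDiff]
    exact hf.contMDiff_finsum_smul (n := 4) hUo (fun i => (hgs i).contMDiffOn)
  have hneg : ∀ x ∈ Ω, ρ x < 0 := by
    intro x hx
    exact f.finsum_smul_mem_convex (t := Iio (0 : ℝ)) (mem_univ x)
      (fun i hi => (hgi i x (hfU i x hi)).1 hx) (convex_Iio 0)
  have hpos : ∀ x ∉ Ω, 0 ≤ ρ x := by
    intro x hx
    refine f.finsum_smul_mem_convex (t := Ici (0 : ℝ)) (mem_univ x)
      (fun i hi => ?_) (convex_Ici 0)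
    by_contra hcon
    exact hx ((hgi i x (hfU i x hi)).2 (not_le.1 hcon))
  have hΩ : Ω = {x | ρ x < 0} := by
    ext x
    constructor
    · exact hneg x
    · intro h
      by_contra hx
      exact absurd h (not_lt.2 (hpos x hx))
  refine ⟨ρ, hρs, hΩ, ?_⟩
  intro q hq hq0
  obtain ⟨i, hi⟩ := f.exists_pos_of_mem (mem_univ q)
  have hqi : q ∈ U i := hfU i q hi.ne'
  have hqΩ : q ∉ Ω := by
    rw [ho.frontier_eq] at hq
    exact hq.2
  have hifr : i ∈ frontier Ω := by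
    by_contra hcon
    simp only [hU, if_neg hcon] at hqi
    split_ifs at hqi with h1
    · exact hqΩ hqi
    · exact hqi (frontier_subset_closure hq)
  have hgir : g i = r i := by simp only [hg, if_pos hifr]
  have hUiV : U i = V i := by simp only [hU, if_pos hifr]
  rw [hUiV] at hqi
  have hLD : LocDef 2 Ω q (V i) (g i) := by
    rw [hgir]
    exact (hVr i hifr q hqi).of_le (by norm_num)
  obtain ⟨v, hv⟩ : ∃ v, fderiv ℝ (g i) q v < 0 := by
    by_contra hcon
    push Not at hcon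
    apply hLD.grad
    ext w
    have h1 := hcon w
    have h2 := hcon (-w)
    rw [map_neg] at h2
    simpa using le_antisymm (by linarith) h1
  have hgq : g i q = 0 := hLD.zero ho hq
  have hρq : ρ q = 0 := by
    refine f.finsum_smul_mem_convex (t := {0}) (mem_univ q) (fun j hj => ?_)
      (convex_singleton 0)
    have hqj := hfU j q hj
    have hjfr : j ∈ frontier Ω := by
      by_contra hcon
      simp only [hU, if_neg hcon] at hqj
      split_ifs at hqj with h1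
      · exact hqΩ hqj
      · exact hqj (frontier_subset_closure hq)
    have h1 : g j = r j := by simp only [hg, if_pos hjfr]
    have h2 : U j = V j := by simp only [hU, if_pos hjfr]
    rw [h2] at hqj
    rw [h1]
    exact ((hVr j hjfr q hqj).of_le (by norm_num)).zero ho hq
  have hle : ∀ x ∈ Ω, ρ x ≤ f i x * g i x := by
    intro x hx
    have h1 : ∀ j, 0 ≤ -(f j x • g j x) := by
      intro j
      rw [smul_eq_mul]
      rcases eq_or_ne (f j x) 0 with h | h
      · rw [h, zero_mul, neg_zero]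
      · have := (hgi j x (hfU j x h)).1 hx
        have h3 := f.nonneg j x
        nlinarith [mul_nonneg h3 (neg_nonneg.2 this.le)]
    have hfin : (Function.support fun j => f j x • g j x).Finite := by
      refine (f.locallyFinite.point_finite x).subset ?_
      intro j hj
      simp only [Function.mem_support] at hj ⊢
      intro h0
      exact hj (by rw [h0, zero_smul])
    have h2 := single_le_finsum i (f := fun j => -(f j x • g j x)) (by
      show (Function.support fun j => -(f j x • g j x)).Finite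
      rw [Function.support_fun_neg]
      exact hfin) h1
    rw [finsum_neg_distrib] at h2
    have h4 : ρ x = ∑ᶠ j, f j x • g j x := rfl
    rw [smul_eq_mul] at h2
    linarith
  have hfd : HasFDerivAt (fun x => f i x) (fderiv ℝ (fun x => f i x) q) q := by
    have h1 : ContDiff ℝ ∞ (fun x => f i x) := contMDiff_iff_contDiff.1 (f i).contMDiff
    exact (h1.differentiable (by simp) q).hasFDerivAt
  have hpath : HasDerivAt (fun t : ℝ => q + t • v) v 0 := by
    simpa using ((hasDerivAt_id (0 : ℝ)).smul_const v).const_add q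
  have hq0' : q + (0 : ℝ) • v = q := by simp
  have hD1 : HasDerivAt (fun t : ℝ => ρ (q + t • v)) (fderiv ℝ ρ q v) 0 := by
    have h1 : HasFDerivAt ρ (fderiv ℝ ρ q) (q + (0 : ℝ) • v) := by
      rw [hq0']
      exact (hρs.differentiable (by norm_num) q).hasFDerivAt
    exact h1.comp_hasDerivAt (0 : ℝ) hpath
  have hD2 : HasDerivAt (fun t : ℝ => f i (q + t • v))
      (fderiv ℝ (fun x => f i x) q v) 0 := by
    have h1 : HasFDerivAt (fun x => f i x) (fderiv ℝ (fun x => f i x) q) (q + (0 : ℝ) • v) := by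
      rw [hq0']
      exact hfd
    exact h1.comp_hasDerivAt (0 : ℝ) hpath
  have hD3 := hLD.first v
  have hD4 := hD1.sub (hD2.mul hD3)
  rw [hq0] at hD4
  simp only [hq0', hgq, mul_zero, zero_apply, zero_add, zero_sub] at hD4
  have hc : Tendsto (fun t : ℝ => q + t • v) (𝓝[>] 0) (𝓝 q) := by
    have : Continuous (fun t : ℝ => q + t • v) := by fun_prop
    have h3 := (this.tendsto 0).mono_left (nhdsWithin_le_nhds (s := Ioi (0 : ℝ)))
    simpa using h3
  have hneg1 := neg_of_deriv1 (h := fun t : ℝ => g i (q + t • v)) (by simpa using hgq)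
    (hLD.first v) hv
  have := le_of_deriv1 (h := fun t : ℝ => ρ (q + t • v) - f i (q + t • v) * g i (q + t • v))
    (by simp [hρq, hgq]) hD4 (by
      filter_upwards [hneg1, hc hLD.nhds] with t ht1 ht2
      have := hle _ ((hLD.iff _ ht2).2 ht1)
      linarith)
  have h5 : 0 < f i q * (-fderiv ℝ (g i) q v) := mul_pos hi (by linarith)
  linarith

end SqzC4
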