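import Pool.Agent.SqzC4.MinPrinciple

set_option autoImplicit false

open Metric Set
open scoped ComplexConjugate

namespace SqzC4

/-- Logarithmic form of the lower bound. -/
theorem lb_log {Cb lam η x : ℝ} {k m : ℕ} (hCb : 0 < Cb) (hlam : 1 < lam) (hk : 0 < k)
    (hx : 0 < x) (hk4 : (4 : ℝ) ^ 200 ≤ lam ^ k)
    (h : 1 ≤ Cb * (4 * lam ^ k) ^ ((m : ℝ) / k) * x ^ η) :
    0 ≤ Real.log Cb + m * (201 / 200) * Real.log lam + η * Real.log x := by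
  have hlk : 0 < lam ^ k := by positivity
  have h1 := Real.log_le_log one_pos h
  rw [Real.log_one, Real.log_mul (by positivity) (by positivity),
    Real.log_mul hCb.ne' (by positivity), Real.log_rpow (by positivity), Real.log_rpow hx,
    Real.log_mul (by norm_num) hlk.ne', Real.log_pow] at h1
  have h2 := Real.log_le_log (by positivity) hk4
  rw [Real.log_pow, Real.log_pow] at h2
  push_cast at h2
  have hk' : (0 : ℝ) < k := by exact_mod_cast hk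
  have h3 : (m : ℝ) / k * (Real.log 4 + k * Real.log lam) ≤
      (m : ℝ) / k * (k * Real.log lam * (201 / 200)) := by
    apply mul_le_mul_of_nonneg_left _ (by positivity)
    linarith
  have h4 : (m : ℝ) / k * (k * Real.log lam * (201 / 200)) = m * (201 / 200) * Real.log lam := by
    field_simp
  linarith

/-- The upper bound for the number of steps on the inner normal. -/
theorem hops_upper (DC : DiscChain) {n : ℕ} {U A : Set (E n)} {p N : E n} {lam c₀ : ℝ}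
    (hlam : 1 < lam) (hc₀ : 0 < c₀)
    (hdisc : ∀ s : ℂ, ‖s‖ < 1 → p - ((c₀ : ℂ) * (1 - s)) • N ∈ U)
    (hA : p - (c₀ : ℂ) • N ∈ A) {h : ℝ} (hh : 0 < h) (hhc : h < c₀) :
    (∃ m : ℕ, ∃ y ∈ A, Chain U lam m (p - (h : ℂ) • N) y) ∧
    lam ^ hops U A lam (p - (h : ℂ) • N) ≤ 4 * lam * c₀ / h := by
  obtain ⟨j, hj1, hj2⟩ := exists_nat_pow_near (x := 4 * c₀ / h) (y := lam)
    (by rw [le_div_iff₀ hh]; linarith) hlam
  set φ : ℂ → E n := fun s => p - ((c₀ : ℂ) * (1 - s)) • N with hφ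
  have hch : Chain U lam (j + 1) (φ ((1 - h / c₀ : ℝ) : ℂ)) (φ 0) := by
    have hhc' : h / c₀ < 1 := (div_lt_one hc₀).mpr hhc
    have hhp : 0 < h / c₀ := by positivity
    apply DC n U lam (j + 1) φ _ _ hlam
    · apply Differentiable.differentiableOn
      simp only [hφ]
      fun_prop
    · intro s hs
      exact hdisc s (by simpa using hs)
    · rw [Complex.norm_real, Real.norm_eq_abs, abs_lt]; constructor <;> linarith
    · simp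
    · rw [Complex.norm_real, Real.norm_eq_abs, sq_abs]
      simp only [mul_zero, sub_zero, norm_one, one_pow, norm_zero, mul_one, ne_eq,
        OfNat.ofNat_ne_zero, not_false_eq_true, zero_pow]
      have e1 : 1 - (1 - h / c₀) ^ 2 = h / c₀ * (2 - h / c₀) := by ring
      rw [e1]
      have e2 : h / c₀ ≤ h / c₀ * (2 - h / c₀) := by nlinarith
      calc 4 / (h / c₀ * (2 - h / c₀)) ≤ 4 / (h / c₀) := by gcongr
        _ = 4 * c₀ / h := by field_simp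
        _ ≤ lam ^ (j + 1) := hj2.le
  have e1 : φ ((1 - h / c₀ : ℝ) : ℂ) = p - (h : ℂ) • N := by
    simp only [hφ]
    congr 2
    push_cast
    have : (c₀ : ℂ) ≠ 0 := by exact_mod_cast hc₀.ne'
    field_simp
    ring
  have e2 : φ 0 = p - (c₀ : ℂ) • N := by simp [hφ]
  rw [e1, e2] at hch
  refine ⟨⟨j + 1, _, hA, hch⟩, ?_⟩
  have hle : hops U A lam (p - (h : ℂ) • N) ≤ j + 1 := Nat.sInf_le ⟨_, hA, hch⟩
  calc lam ^ hops U A lam (p - (h : ℂ) • N) ≤ lam ^ (j + 1) :=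
        pow_le_pow_right₀ hlam.le hle
    _ = lam * lam ^ j := by ring
    _ ≤ lam * (4 * c₀ / h) := by gcongr
    _ = 4 * lam * c₀ / h := by ring

/-- If `VV` is small at `p - hN` then one step leads from `p - hN` to `p - h(1-4δ)N`. -/
theorem one_step (VC : VChart) {n : ℕ} {Ω U : Set (E n)} {p N v : E n} {D : ℝ}
    (hΩ : IsOpen Ω) (hUΩ : U ⊆ Ω) (hN : ‖N‖ = 1) (hv : ‖v‖ = 1)
    (hNv : (inner ℂ N v : ℂ) = 0) (hD0 : 0 < D)
    (hD : ∀ x ∈ Ω, ∀ y ∈ Ω, dist x y ≤ D) {δ h ρ₀ : ℝ} {f g : E n → E n}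
    (hδ : 0 < δ) (hδ1 : δ ≤ 1 / 1024) (hh : 0 < h) (hρ₀ : 3 / 4 < ρ₀)
    (hch : IsChart Ω U ρ₀ (p - (h : ℂ) • N) f g)
    (hin : ∀ σ : ℂ, ‖σ‖ < 1 → p - ((h : ℂ) + (h / 2 : ℝ) * σ) • N ∈ Ω)
    (hV : VV Ω N v (p - (h : ℂ) • N) < (ρ₀ / D) ^ 2 * (1 / 32) ^ 2 / h ^ 2) :
    Step U (1 + δ) (p - (h : ℂ) • N) (p - ((h * (1 - 4 * δ) : ℝ) : ℂ) • N) := by
  set z : E n := p - (h : ℂ) • N with hz
  have hzΩ : z ∈ Ω := by
    have := hin 0 (by simp)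
    simpa [hz] using this
  have hchΩ : IsChart Ω Ω ρ₀ z f g :=
    ⟨hch.df, hch.mf, hch.fz, hch.dg, fun b hb => hUΩ (hch.mg hb), hch.fg, hch.gf⟩
  obtain ⟨hlow, -, -⟩ := VC n Ω N v D hΩ hN hv hNv hD0 hD ρ₀ z f g (by linarith) hzΩ hchΩ
  -- size of the derivative
  set A : E n := fderiv ℂ f z N with hA
  have hAlt : ‖A‖ < 1 / (32 * h) := by
    have h1 : (ρ₀ / D) ^ 2 * ‖A‖ ^ 2 < (ρ₀ / D) ^ 2 * (1 / 32) ^ 2 / h ^ 2 := hlow.trans_lt hV
    have h2 : (ρ₀ / D) ^ 2 * (1 / 32) ^ 2 / h ^ 2 = (ρ₀ / D) ^ 2 * (1 / (32 * h)) ^ 2 := by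
      field_simp
    rw [h2] at h1
    have hp : 0 < (ρ₀ / D) ^ 2 := by
      have : 0 < ρ₀ := by linarith
      positivity
    have h3 := lt_of_mul_lt_mul_left h1 hp.le
    exact lt_of_pow_lt_pow_left₀ 2 (by positivity) h3
  set y : ℂ → E n := fun σ => p - ((h : ℂ) + (h / 2 : ℝ) * σ) • N with hy
  have hy0 : y 0 = z := by simp [hy, hz]
  have hyd : ∀ σ : ℂ, HasDerivAt y (-((h / 2 : ℝ) : ℂ) • N) σ := by
    intro σ
    have h1 : HasDerivAt (fun σ : ℂ => (h : ℂ) + (h / 2 : ℝ) * σ) ((h / 2 : ℝ) : ℂ) σ := by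
      have := ((hasDerivAt_id σ).const_mul ((h / 2 : ℝ) : ℂ)).const_add (h : ℂ)
      simpa using this
    have h2 := (h1.smul_const N).const_sub p
    rw [neg_smul]
    exact h2
  set G : ℂ → E n := fun σ => f (y σ) with hG
  have hGdiff : DifferentiableOn ℂ G (ball 0 1) := by
    apply hch.df.comp (fun σ _ => (hyd σ).differentiableAt.differentiableWithinAt)
    intro σ hσ
    exact hin σ (by simpa using hσ)
  have hG0 : G 0 = 0 := by simp [hG, hy0, hch.fz]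
  have hfz : HasFDerivAt f (fderiv ℂ f z) z :=
    ((hch.df z hzΩ).differentiableAt (hΩ.mem_nhds hzΩ)).hasFDerivAt
  set G' : E n := -((h / 2 : ℝ) : ℂ) • A with hG'
  have hGd : HasDerivAt G G' 0 := by
    have hfz' : HasFDerivAt f (fderiv ℂ f z) (y 0) := by rw [hy0]; exact hfz
    have := hfz'.comp_hasDerivAt 0 (hyd 0)
    have e : (fderiv ℂ f z) (-((h / 2 : ℝ) : ℂ) • N) = G' := by
      rw [hG', hA, map_smul]
    rw [e] at this
    exact this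
  have hG'n : ‖G'‖ ≤ 1 / 64 := by
    rw [hG', norm_smul, norm_neg, Complex.norm_real, Real.norm_eq_abs, abs_of_pos (by positivity)]
    calc h / 2 * ‖A‖ ≤ h / 2 * (1 / (32 * h)) := by gcongr
      _ = 1 / 64 := by field_simp; norm_num
  set G₂ : ℂ → E n := fun σ => G σ - σ • G' with hG₂
  have hG₂0 : G₂ 0 = 0 := by simp [hG₂, hG0]
  have hG₂d : DifferentiableOn ℂ G₂ (ball 0 1) := by
    apply hGdiff.sub
    apply Differentiable.differentiableOn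
    fun_prop
  have hG₂m : MapsTo G₂ (ball 0 1) (closedBall (G₂ 0) 2) := by
    intro σ hσ
    rw [hG₂0]
    have hσ1 : ‖σ‖ < 1 := by simpa using hσ
    have h1 : ‖G σ‖ < 1 := by
      have := hch.mf (hin σ hσ1)
      rw [mem_ball_zero_iff] at this
      exact this
    have h2 : ‖σ • G'‖ ≤ 1 := by
      rw [norm_smul]
      nlinarith [norm_nonneg σ, norm_nonneg G']
    have h3 : ‖G₂ σ‖ ≤ ‖G σ‖ + ‖σ • G'‖ := norm_sub_le _ _
    simp only [mem_closedBall, dist_zero_right]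
    linarith
  have hG₂o : (fun σ => G₂ σ - G₂ 0) =o[nhds 0] (fun w => ‖w - 0‖ ^ 1) := by
    have h1 := hGd.isLittleO
    have h2 : (fun σ => G₂ σ - G₂ 0) = fun σ => G σ - G 0 - (σ - 0) • G' := by
      funext σ
      rw [hG₂0, hG0]
      simp [hG₂]
    rw [h2]
    refine h1.trans_isBigO ?_
    simp only [pow_one]
    exact Asymptotics.isBigO_refl _ _ |>.norm_right
  set σ₀ : ℂ := ((-8 * δ : ℝ) : ℂ) with hσ₀
  have hσ₀n : ‖σ₀‖ = 8 * δ := by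
    rw [hσ₀, Complex.norm_real, Real.norm_eq_abs, abs_of_neg (by linarith)]; ring
  have hb := Complex.dist_le_mul_div_pow_of_mapsTo_ball_of_isLittleO hG₂d hG₂m hG₂o (z := σ₀)
    (by simp only [mem_ball, dist_zero_right, hσ₀n]; linarith)
  rw [hG₂0, dist_zero_right, dist_zero_right, hσ₀n] at hb
  have hGb : ‖G σ₀‖ ≤ δ / 4 := by
    have h1 : ‖G σ₀‖ ≤ ‖G₂ σ₀‖ + ‖σ₀ • G'‖ := by
      have : G σ₀ = G₂ σ₀ + σ₀ • G' := by simp [hG₂]
      rw [this]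
      exact norm_add_le _ _
    rw [norm_smul, hσ₀n] at h1
    have h2 : 8 * δ * ‖G'‖ ≤ 8 * δ * (1 / 64) := by gcongr
    norm_num at hb
    nlinarith
  have hyσ : y σ₀ = p - ((h * (1 - 4 * δ) : ℝ) : ℂ) • N := by
    simp only [hy, hσ₀]
    congr 2
    push_cast
    ring
  have hyσΩ : y σ₀ ∈ Ω := hin σ₀ (by rw [hσ₀n]; linarith)
  have hgG : g (G σ₀) = y σ₀ := by
    apply hch.gf _ hyσΩ
    simp only [mem_ball, dist_zero_right]
    have : ‖f (y σ₀)‖ ≤ δ / 4 := hGb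
    linarith
  -- the disc
  set t : ℝ := (1 + δ - 1) / (1 + δ + 1) with ht
  have ht' : t = δ / (2 + δ) := by rw [ht]; congr 1 <;> ring
  have ht0 : 0 < t := by rw [ht']; positivity
  set a : E n := ((t : ℂ))⁻¹ • G σ₀ with ha
  have han : ‖a‖ ≤ 3 / 4 := by
    rw [ha, norm_smul, norm_inv, Complex.norm_real, Real.norm_eq_abs, abs_of_pos ht0, ht']
    rw [inv_div]
    calc (2 + δ) / δ * ‖G σ₀‖ ≤ (2 + δ) / δ * (δ / 4) := by gcongr
      _ = (2 + δ) / 4 := by field_simp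
      _ ≤ 3 / 4 := by linarith
  refine ⟨fun s => g (s • a), ?_, ?_, ?_, ?_⟩
  · apply hch.dg.comp
    · apply Differentiable.differentiableOn; fun_prop
    · intro s hs
      have hs1 : ‖s‖ < 1 := by simpa using hs
      simp only [mem_ball, dist_zero_right, norm_smul]
      nlinarith [norm_nonneg s, norm_nonneg a]
  · intro s hs
    apply hch.mg
    have hs1 : ‖s‖ < 1 := by simpa using hs
    simp only [mem_ball, dist_zero_right, norm_smul]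
    nlinarith [norm_nonneg s, norm_nonneg a]
  · simp only [zero_smul]
    have := hch.gf z hzΩ (by rw [hch.fz]; simp; linarith)
    rw [hch.fz] at this
    exact this
  · have htc : (t : ℂ) ≠ 0 := by exact_mod_cast ht0.ne'
    show g (((t : ℝ) : ℂ) • a) = _
    rw [ha, smul_smul, mul_inv_cancel₀ htc, one_smul, hgG, hyσ]

/-- `VV ≥ c'/h²` at arbitrarily small heights of the inner normal. -/
theorem lower_d (VC : VChart) (CL : ChainCalc) {n : ℕ} {Ω U A : Set (E n)} {ρ : E n → ℝ}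
    {p N v : E n} {D C c c₁ lam ρ₀ Cb : ℝ}
    (hΩ : IsOpen Ω) (hΩρ : ∀ x, ρ x < 0 → x ∈ Ω) (hUΩ : U ⊆ Ω) (hN : ‖N‖ = 1) (hv : ‖v‖ = 1)
    (hNv : (inner ℂ N v : ℂ) = 0) (hD0 : 0 < D)
    (hD : ∀ x ∈ Ω, ∀ y ∈ Ω, dist x y ≤ D) (hC0 : 0 < C) (hlam : 1 < lam)
    (hlam1 : lam ≤ 1 + 1 / 1024) (hρ₀d : 3 / 4 < ρ₀) (hc₁0 : 0 < c₁) (hc₁a : 4 * c₁ ≤ c)
    (hc₁b : C * c₁ ≤ 1 / 1000)
    (hrlow : ∀ ζ : ℂ, ‖ζ‖ < c → ζ.re - C * ‖ζ‖ ^ 2 ≤ -ρ (p - ζ • N))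
    (hrup : ∀ ζ : ℂ, ‖ζ‖ < c → -ρ (p - ζ • N) ≤ ζ.re + C * ‖ζ‖ ^ 2)
    (hzsU : ∀ ζ : ℂ, ‖ζ‖ < 2 * c₁ → 0 < -ρ (p - ζ • N) → p - ζ • N ∈ U)
    (ch2 : ∀ ζ : ℂ, ‖ζ‖ < 2 * c₁ → 0 < -ρ (p - ζ • N) →
      ∃ f g : E n → E n, IsChart Ω U ρ₀ (p - ζ • N) f g)
    (hreach : ∀ ζ : ℂ, ‖ζ‖ < 2 * c₁ → 0 < -ρ (p - ζ • N) →
      ∃ m : ℕ, ∃ y ∈ A, Chain U lam m (p - ζ • N) y)
    (hlbl : ∀ (m : ℕ) (x : E n), x ∈ U → 0 < -ρ x → (∃ y ∈ A, Chain U lam m x y) →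
      0 ≤ Real.log Cb + m * (201 / 200) * Real.log lam + 199 / 200 * Real.log (-ρ x))
    (hpos : ∀ h : ℝ, 0 < h → h < 2 * c₁ → 0 < -ρ (p - (h : ℂ) • N)) :
    ∀ h₀ : ℝ, 0 < h₀ → ∃ h : ℝ, 0 < h ∧ h < h₀ ∧ h < c₁ ∧
      (ρ₀ / D) ^ 2 * (1 / 32) ^ 2 / h ^ 2 ≤ VV Ω N v (p - (h : ℂ) • N) := by
  set δ : ℝ := lam - 1 with hδ
  have hδ0 : 0 < δ := by linarith
  have hδ1 : δ ≤ 1 / 1024 := by linarith
  by_contra hcon
  push Not at hcon
  obtain ⟨h₀, hh₀, hcon⟩ := hcon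
  set h₁ : ℝ := min h₀ c₁ / 2 with hh₁
  have hh₁0 : 0 < h₁ := by positivity
  have hh₁a : h₁ < h₀ := by
    have := min_le_left h₀ c₁
    have : 0 < min h₀ c₁ := lt_min hh₀ hc₁0
    linarith
  have hh₁b : h₁ < c₁ := by
    have := min_le_right h₀ c₁
    have : 0 < min h₀ c₁ := lt_min hh₀ hc₁0
    linarith
  have hstep : ∀ h : ℝ, 0 < h → h ≤ h₁ →
      Step U lam (p - (h : ℂ) • N) (p - ((h * (1 - 4 * δ) : ℝ) : ℂ) • N) := by
    intro h hh hhle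
    have hr := hpos h hh (by linarith)
    have hn : ‖(h : ℂ)‖ = h := by rw [Complex.norm_real, Real.norm_eq_abs, abs_of_pos hh]
    obtain ⟨f, g, hch⟩ := ch2 (h : ℂ) (by rw [hn]; linarith) hr
    have hl : lam = 1 + δ := by rw [hδ]; ring
    rw [hl]
    apply one_step VC hΩ hUΩ hN hv hNv hD0 hD hδ0 hδ1 hh hρ₀d hch
    · intro s hs
      apply hΩρ
      have hn2 : ‖(h : ℂ) + (h / 2 : ℝ) * s‖ ≤ 3 / 2 * h := by
        refine (norm_add_le _ _).trans ?_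
        rw [hn, norm_mul, Complex.norm_real, Real.norm_eq_abs, abs_of_pos (by positivity)]
        nlinarith [norm_nonneg s]
      have h1 := hrlow ((h : ℂ) + (h / 2 : ℝ) * s) (by linarith)
      have h2 : h / 2 ≤ ((h : ℂ) + (h / 2 : ℝ) * s).re := by
        rw [Complex.add_re, Complex.ofReal_re, Complex.re_ofReal_mul]
        have := (abs_le.mp ((Complex.abs_re_le_norm s).trans hs.le)).1
        nlinarith
      have h3 : C * ‖(h : ℂ) + (h / 2 : ℝ) * s‖ ^ 2 ≤ h / 4 := by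
        have e1 : ‖(h : ℂ) + (h / 2 : ℝ) * s‖ ^ 2 ≤ (3 / 2 * h) ^ 2 :=
          pow_le_pow_left₀ (norm_nonneg _) hn2 2
        have e2 : C * ‖(h : ℂ) + (h / 2 : ℝ) * s‖ ^ 2 ≤ C * (3 / 2 * h) ^ 2 := by gcongr
        have e3 : C * h ≤ 1 / 1000 := by
          have : C * h ≤ C * c₁ := by gcongr; linarith
          linarith
        have e4 : C * (3 / 2 * h) ^ 2 = (C * h) * (9 / 4 * h) := by ring
        have e5 : (C * h) * (9 / 4 * h) ≤ 1 / 1000 * (9 / 4 * h) :=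
          mul_le_mul_of_nonneg_right e3 (by positivity)
        linarith
      linarith
    · exact hcon h hh (by linarith) (by linarith)
  obtain ⟨m₀, y₀, hy₀A, hm₀⟩ := hreach (h₁ : ℂ) (by
    rw [Complex.norm_real, Real.norm_eq_abs, abs_of_pos hh₁0]; linarith)
    (hpos h₁ hh₁0 (by linarith))
  have h4δ : 0 < 1 - 4 * δ := by linarith
  have hchain : ∀ j : ℕ, Chain U lam j (p - (h₁ : ℂ) • N)
      (p - ((h₁ * (1 - 4 * δ) ^ j : ℝ) : ℂ) • N) := by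
    intro j
    induction j with
    | zero => simp [Chain]
    | succ j ih =>
      refine ⟨_, ih, ?_⟩
      have hle : (1 - 4 * δ) ^ j ≤ 1 := pow_le_one₀ h4δ.le (by linarith)
      have := hstep (h₁ * (1 - 4 * δ) ^ j) (by positivity) (by nlinarith)
      have e : h₁ * (1 - 4 * δ) ^ (j + 1) = h₁ * (1 - 4 * δ) ^ j * (1 - 4 * δ) := by ring
      rw [e]
      exact this
  obtain ⟨cl1, cl2, -, -, -⟩ := CL n U lam hlam
  have hineq : ∀ j : ℕ, 0 ≤ Real.log Cb + (j + m₀) * (201 / 200) * Real.log lam +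
      199 / 200 * (Real.log 2 + Real.log h₁ + j * Real.log (1 - 4 * δ)) := by
    intro j
    have hle : (1 - 4 * δ) ^ j ≤ 1 := pow_le_one₀ h4δ.le (by linarith)
    have hhj : 0 < h₁ * (1 - 4 * δ) ^ j := by positivity
    have hhj2 : h₁ * (1 - 4 * δ) ^ j ≤ h₁ := by nlinarith
    have hch := cl2 j m₀ _ _ _ (cl1 _ _ _ (hchain j)) hm₀
    have hr := hpos (h₁ * (1 - 4 * δ) ^ j) hhj (by linarith)
    have hn : ‖((h₁ * (1 - 4 * δ) ^ j : ℝ) : ℂ)‖ = h₁ * (1 - 4 * δ) ^ j := by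
      rw [Complex.norm_real, Real.norm_eq_abs, abs_of_pos hhj]
    have h1 := hlbl (j + m₀) _ (hzsU _ (by rw [hn]; linarith) hr) hr ⟨y₀, hy₀A, hch⟩
    have h2 := hrup ((h₁ * (1 - 4 * δ) ^ j : ℝ) : ℂ) (by rw [hn]; linarith)
    rw [hn, Complex.ofReal_re] at h2
    have h3 : C * (h₁ * (1 - 4 * δ) ^ j) ^ 2 ≤ h₁ * (1 - 4 * δ) ^ j := by
      have : C * (h₁ * (1 - 4 * δ) ^ j) ≤ 1 := by
        have : C * (h₁ * (1 - 4 * δ) ^ j) ≤ C * c₁ := by gcongr; linarith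
        linarith
      nlinarith
    have h4 : Real.log (-ρ (p - ((h₁ * (1 - 4 * δ) ^ j : ℝ) : ℂ) • N)) ≤
        Real.log (2 * (h₁ * (1 - 4 * δ) ^ j)) := by
      apply Real.log_le_log hr
      linarith
    rw [Real.log_mul (by norm_num) hhj.ne', Real.log_mul hh₁0.ne' (by positivity),
      Real.log_pow] at h4
    rw [Nat.cast_add] at h1
    linarith
  have hlog1 : Real.log lam ≤ δ := by
    have := Real.log_le_sub_one_of_pos (x := lam) (by linarith)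
    linarith
  have hlog2 : Real.log (1 - 4 * δ) ≤ -(4 * δ) := by
    have := Real.log_le_sub_one_of_pos h4δ
    linarith
  obtain ⟨j, hj⟩ := exists_nat_gt ((Real.log Cb + m₀ * (201 / 200) * Real.log lam +
      199 / 200 * (Real.log 2 + Real.log h₁)) / δ)
  have h1 := hineq j
  have h2 : (j : ℝ) * Real.log lam ≤ j * δ := by gcongr
  have h3 : (j : ℝ) * Real.log (1 - 4 * δ) ≤ j * (-(4 * δ)) := by gcongr
  rw [div_lt_iff₀ hδ0] at hj
  have h4 : 0 ≤ (j : ℝ) * δ := by positivity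
  nlinarith

/-- The core contradiction. -/
theorem core (HL : HopfLemma) (LB : LowerBound) (HI : HopsIneq) (DC : DiscChain)
    (CC : ChainConn) (CL : ChainCalc) (SG : SliceGeom) (SV : SliceV) (VC : VChart)
    (HD : HolDeriv) {n : ℕ} {Ω : Set (E n)} {ρ : E n → ℝ} (hDom : Dom n Ω ρ) {p : E n}
    (hp : p ∈ frontier Ω) {N v : E n} (hN : ‖N‖ = 1) (hv : ‖v‖ = 1)
    (hgrad : ∀ w : E n, fderiv ℝ ρ p w = (inner ℂ N w : ℂ).re)
    (hNv : (inner ℂ N v : ℂ) = 0) (hLev : Lev ρ p v = 0)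
    (charts : ∀ ρ₀ : ℝ, ρ₀ < 1 → ∀ σ : ℝ, 0 < σ → ∃ σ' : ℝ, 0 < σ' ∧
      ∀ z ∈ Ω ∩ ball p σ', ∃ f g : E n → E n, IsChart Ω (Ω ∩ ball p σ) ρ₀ z f g) : False := by
  -- basic facts
  have hΩ := hDom.isOpen
  have hΩρ : ∀ x, ρ x < 0 → x ∈ Ω := fun x hx => by rw [hDom.eq]; exact hx
  obtain ⟨D, hD0, hD⟩ : ∃ D : ℝ, 0 < D ∧ ∀ x ∈ Ω, ∀ y ∈ Ω, dist x y ≤ D := by
    obtain ⟨D, hD⟩ := Metric.isBounded_iff.mp hDom.bdd
    exact ⟨max D 1, lt_max_of_lt_right one_pos, fun x hx y hy => (hD hx hy).trans (le_max_left _ _)⟩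
  obtain ⟨cg, Cg, hcg, hCg, g1', g2'⟩ := SG n Ω ρ hDom p hp N hN hgrad
  obtain ⟨cv, Cv, hcv, hCv, v1', v2'⟩ := SV n Ω ρ hDom p hp N v hN hv hgrad hNv hLev
  set c : ℝ := min cg cv with hc
  set C : ℝ := max Cg Cv with hCdef
  have hc0 : 0 < c := lt_min hcg hcv
  have hC1 : 1 ≤ C := hCg.trans (le_max_left _ _)
  have hC0 : 0 < C := by linarith
  have hcc1 : c ≤ cg := min_le_left _ _
  have hcc2 : c ≤ cv := min_le_right _ _
  have hCC1 : Cg ≤ C := le_max_left _ _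
  have hCC2 : Cv ≤ C := le_max_right _ _
  have g1 : ∀ ζ : ℂ, ‖ζ‖ < c → |(-ρ (p - ζ • N)) - ζ.re| ≤ C * ‖ζ‖ ^ 2 := by
    intro ζ hζ
    refine (g1' ζ (hζ.trans_le hcc1)).trans ?_
    gcongr
  have g2 : ∀ ζ : ℂ, ‖ζ‖ < c → ∃ κ : ℂ, ‖κ - 1‖ ≤ 1 / 4 ∧ ∀ ξ : ℂ, ‖ξ‖ < c →
      |(-ρ (p - (ζ + ξ) • N)) - (-ρ (p - ζ • N)) - (κ * ξ).re| ≤ C * ‖ξ‖ ^ 2 := by
    intro ζ hζ
    obtain ⟨κ, h1, h2⟩ := g2' ζ (hζ.trans_le hcc1)
    refine ⟨κ, h1, fun ξ hξ => (h2 ξ (hξ.trans_le hcc1)).trans ?_⟩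
    gcongr
  have v1 : ∀ ζ : ℂ, ‖ζ‖ < c → 0 < -ρ (p - ζ • N) →
      VV Ω N v (p - ζ • N) ≤ C / (-ρ (p - ζ • N)) ^ 3 := by
    intro ζ hζ h0
    refine (v1' ζ (hζ.trans_le hcc2) h0).trans ?_
    gcongr
  have v2 : ∀ ζ : ℂ, ‖ζ‖ < c → 0 < -ρ (p - ζ • N) → -ρ (p - ζ • N) ≤ |ζ.im| ^ 6 / C →
      VV Ω N v (p - ζ • N) ≤ C * |ζ.im| ^ 2 / (-ρ (p - ζ • N)) ^ 3 := by
    intro ζ hζ h0 h1
    have hCv0 : 0 < Cv := by linarith
    refine (v2' ζ (hζ.trans_le hcc2) h0 (h1.trans ?_)).trans ?_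
    · gcongr
    · gcongr
  -- Hopf
  obtain ⟨L, hL0, σ, hσ0, hHopf⟩ := HL n Ω ρ hDom p hp (199 / 200) (by norm_num) (by norm_num)
  -- step size
  obtain ⟨lam₀, hlam₀, HI1⟩ := HI (1 / 10 ^ 9) (by norm_num)
  set lam : ℝ := min lam₀ (1 + 1 / 1024) with hlamdef
  have hlam : 1 < lam := lt_min hlam₀ (by norm_num)
  obtain ⟨k₀, HI2⟩ := HI1 lam hlam (min_le_left _ _)
  obtain ⟨k, hkk₀, hk0, hk4⟩ : ∃ k : ℕ, k₀ ≤ k ∧ 0 < k ∧ (4 : ℝ) ^ 200 ≤ lam ^ k := by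
    obtain ⟨j, hj⟩ := pow_unbounded_of_one_lt ((4 : ℝ) ^ 200) hlam
    refine ⟨max j (max k₀ 1), (le_max_left _ _).trans (le_max_right _ _),
      lt_of_lt_of_le one_pos ((le_max_right _ _).trans (le_max_right _ _)), ?_⟩
    exact hj.le.trans (pow_le_pow_right₀ hlam.le (le_max_left _ _))
  obtain ⟨r₁, hr₁, HI3⟩ := HI2 k hkk₀
  have hlk : 0 < lam ^ k := by positivity
  set ρ₂ : ℝ := (3 * lam ^ k - 1) / (3 * lam ^ k + 1) with hρ₂
  have hρ₂1 : ρ₂ < 1 := by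
    rw [hρ₂, div_lt_one (by positivity)]; linarith
  set ρ₀ : ℝ := max r₁ (max (1 - 1 / 10 ^ 9) ((1 + ρ₂) / 2)) with hρ₀
  have hρ₀1 : ρ₀ < 1 := max_lt hr₁ (max_lt (by norm_num) (by linarith))
  have hρ₀a : r₁ ≤ ρ₀ := le_max_left _ _
  have hρ₀b : 1 - 1 / 10 ^ 9 ≤ ρ₀ := (le_max_left _ _).trans (le_max_right _ _)
  have hρ₀c : ρ₂ ≤ 2 * ρ₀ - 1 := by
    have : (1 + ρ₂) / 2 ≤ ρ₀ := (le_max_right _ _).trans (le_max_right _ _)
    linarith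
  have hρ₀d : 3 / 4 < ρ₀ := by norm_num at hρ₀b ⊢; linarith
  -- first charts
  obtain ⟨σ₁, hσ₁, ch1⟩ := charts ρ₀ hρ₀1 σ hσ0
  set σ' : ℝ := min σ₁ σ with hσ'
  have hσ'0 : 0 < σ' := lt_min hσ₁ hσ0
  have ch1' : ∀ z ∈ Ω ∩ ball p σ', ∃ f g : E n → E n, IsChart Ω (Ω ∩ ball p σ) ρ₀ z f g :=
    fun z hz => ch1 z ⟨hz.1, ball_subset_ball (min_le_left _ _) hz.2⟩
  set U : Set (E n) := Ω ∩ ball p σ' with hU
  have hUΩ : U ⊆ Ω := inter_subset_left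
  have hUo : IsOpen U := hΩ.inter isOpen_ball
  -- slice points
  have hzs : ∀ ζ : ℂ, dist (p - ζ • N) p = ‖ζ‖ := by
    intro ζ
    rw [dist_eq_norm, sub_sub_cancel_left, norm_neg, norm_smul, hN, mul_one]
  have hzsU : ∀ ζ : ℂ, ‖ζ‖ < σ' → 0 < -ρ (p - ζ • N) → p - ζ • N ∈ U := by
    intro ζ h1 h2
    refine ⟨hΩρ _ (by linarith), ?_⟩
    rw [mem_ball, hzs]; exact h1
  -- the disc on the inner normal
  obtain ⟨c₀, hc₀0, hc₀a, hc₀b, hc₀c⟩ : ∃ c₀ : ℝ, 0 < c₀ ∧ 4 * c₀ ≤ σ' ∧ 8 * c₀ ≤ c ∧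
      8 * C * c₀ ≤ 1 := by
    refine ⟨min (σ' / 4) (min (c / 8) (1 / (8 * C))), by positivity, ?_, ?_, ?_⟩
    · have := min_le_left (σ' / 4) (min (c / 8) (1 / (8 * C)))
      linarith
    · have := (min_le_right (σ' / 4) (min (c / 8) (1 / (8 * C)))).trans (min_le_left _ _)
      linarith
    · have := (min_le_right (σ' / 4) (min (c / 8) (1 / (8 * C)))).trans (min_le_right _ _)
      calc 8 * C * min (σ' / 4) (min (c / 8) (1 / (8 * C))) ≤ 8 * C * (1 / (8 * C)) := by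
            gcongr
        _ = 1 := by field_simp
  have hrlow : ∀ ζ : ℂ, ‖ζ‖ < c → ζ.re - C * ‖ζ‖ ^ 2 ≤ -ρ (p - ζ • N) := by
    intro ζ hζ
    have := (abs_le.mp (g1 ζ hζ)).1
    linarith
  have hrup : ∀ ζ : ℂ, ‖ζ‖ < c → -ρ (p - ζ • N) ≤ ζ.re + C * ‖ζ‖ ^ 2 := by
    intro ζ hζ
    have := (abs_le.mp (g1 ζ hζ)).2
    linarith
  have hdisc : ∀ s : ℂ, ‖s‖ < 1 → p - ((c₀ : ℂ) * (1 - s)) • N ∈ U := by
    intro s hs
    have hn : ‖(c₀ : ℂ) * (1 - s)‖ = c₀ * ‖1 - s‖ := by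
      rw [norm_mul, Complex.norm_real, Real.norm_eq_abs, abs_of_pos hc₀0]
    have h1 : ‖1 - s‖ < 2 := by
      have := norm_sub_le (1 : ℂ) s
      rw [norm_one] at this; linarith
    have h2 : ‖(c₀ : ℂ) * (1 - s)‖ < 2 * c₀ := by rw [hn]; nlinarith
    have h3 : ‖1 - s‖ ^ 2 ≤ 2 * (1 - s.re) := by
      rw [← Complex.normSq_eq_norm_sq, Complex.normSq_apply, Complex.sub_re, Complex.sub_im,
        Complex.one_re, Complex.one_im]
      have h4 : ‖s‖ ^ 2 = s.re ^ 2 + s.im ^ 2 := by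
        rw [← Complex.normSq_eq_norm_sq, Complex.normSq_apply]; ring
      have h5 : ‖s‖ ^ 2 ≤ 1 := by nlinarith [norm_nonneg s]
      nlinarith
    have h6 : s.re < 1 := (Complex.re_le_norm s).trans_lt hs
    have h7 : ((c₀ : ℂ) * (1 - s)).re = c₀ * (1 - s.re) := by
      rw [Complex.re_ofReal_mul, Complex.sub_re, Complex.one_re]
    apply hzsU _ (by linarith)
    have h8 := hrlow ((c₀ : ℂ) * (1 - s)) (by linarith)
    rw [h7, hn] at h8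
    have h9 : C * (c₀ * ‖1 - s‖) ^ 2 ≤ c₀ * (1 - s.re) * (1 / 4) := by
      have : C * (c₀ * ‖1 - s‖) ^ 2 = (C * c₀) * (c₀ * ‖1 - s‖ ^ 2) := by ring
      rw [this]
      have h10 : c₀ * ‖1 - s‖ ^ 2 ≤ c₀ * (2 * (1 - s.re)) := by gcongr
      have h11 : C * c₀ ≤ 1 / 8 := by linarith
      calc (C * c₀) * (c₀ * ‖1 - s‖ ^ 2) ≤ (1 / 8) * (c₀ * (2 * (1 - s.re))) := by
            apply mul_le_mul h11 h10 (by positivity) (by norm_num)
        _ = c₀ * (1 - s.re) * (1 / 4) := by ring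
    have h12 : 0 < c₀ * (1 - s.re) := mul_pos hc₀0 (by linarith)
    linarith
  -- the base set
  set r₀ : ℝ := -ρ (p - (c₀ : ℂ) • N) with hr₀
  have hp₀U : p - (c₀ : ℂ) • N ∈ U := by
    have := hdisc 0 (by simp)
    simpa using this
  have hr₀0 : 0 < r₀ := by
    have : p - (c₀ : ℂ) • N ∈ Ω := hUΩ hp₀U
    rw [hDom.eq] at this
    have : ρ (p - (c₀ : ℂ) • N) < 0 := this
    linarith
  set A : Set (E n) := {y | y ∈ U ∧ r₀ ≤ -ρ y} with hA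
  have hAU : A ⊆ U := fun y hy => hy.1
  have hp₀A : p - (c₀ : ℂ) • N ∈ A := ⟨hp₀U, le_refl _⟩
  -- lower bound
  obtain ⟨Cb, hCb, hLB⟩ := LB n Ω ρ hDom p (199 / 200) L σ (by norm_num) (by norm_num) hL0 hσ0
    hHopf lam k ρ₀ σ' r₀ hlam hk0 hρ₀1 hρ₀c hσ'0 (min_le_right _ _) ch1' hr₀0
  have hlbl : ∀ (m : ℕ) (x : E n), x ∈ U → 0 < -ρ x → (∃ y ∈ A, Chain U lam m x y) →
      0 ≤ Real.log Cb + m * (201 / 200) * Real.log lam + 199 / 200 * Real.log (-ρ x) := by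
    rintro m x hx hρx ⟨y, hyA, hch⟩
    exact lb_log hCb hlam hk0 hρx hk4 (hLB m x y hx hyA.1 hyA.2 hch)
  have hlogl : 0 < Real.log lam := Real.log_pos hlam
  -- second charts
  obtain ⟨σ₂, hσ₂, ch2⟩ := charts ρ₀ hρ₀1 σ' hσ'0
  -- the region
  obtain ⟨c₁, hc₁0, hc₁a, hc₁b, hc₁c, hc₁d, hc₁e, hc₁f⟩ : ∃ c₁ : ℝ, 0 < c₁ ∧ 4 * c₁ ≤ c ∧
      C * c₁ ≤ 1 / 1000 ∧ 2 * c₁ ≤ σ' ∧ 2 * c₁ ≤ σ₂ ∧ 8 * c₁ ≤ c₀ ∧
      Real.log (4 * c₁) ≤ -(201 / 199) * (k * Real.log lam) - (200 / 199) * |Real.log Cb| := by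
    set B : ℝ := Real.exp (-(201 / 199) * (k * Real.log lam) - (200 / 199) * |Real.log Cb|)
      with hB
    have hB0 : 0 < B := Real.exp_pos _
    refine ⟨min (min (c / 4) (1 / (1000 * C))) (min (min (σ' / 2) (σ₂ / 2))
      (min (c₀ / 8) (B / 4))), by positivity, ?_, ?_, ?_, ?_, ?_, ?_⟩
    · have := (min_le_left (min (c / 4) (1 / (1000 * C))) (min (min (σ' / 2) (σ₂ / 2))
        (min (c₀ / 8) (B / 4)))).trans (min_le_left _ _)
      linarith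
    · have := (min_le_left (min (c / 4) (1 / (1000 * C))) (min (min (σ' / 2) (σ₂ / 2))
        (min (c₀ / 8) (B / 4)))).trans (min_le_right _ _)
      calc C * _ ≤ C * (1 / (1000 * C)) := by gcongr
        _ = 1 / 1000 := by field_simp
    · have := ((min_le_right (min (c / 4) (1 / (1000 * C))) (min (min (σ' / 2) (σ₂ / 2))
        (min (c₀ / 8) (B / 4)))).trans (min_le_left _ _)).trans (min_le_left _ _)
      linarith
    · have := ((min_le_right (min (c / 4) (1 / (1000 * C))) (min (min (σ' / 2) (σ₂ / 2))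
        (min (c₀ / 8) (B / 4)))).trans (min_le_left _ _)).trans (min_le_right _ _)
      linarith
    · have := ((min_le_right (min (c / 4) (1 / (1000 * C))) (min (min (σ' / 2) (σ₂ / 2))
        (min (c₀ / 8) (B / 4)))).trans (min_le_right _ _)).trans (min_le_left _ _)
      linarith
    · have h1 := ((min_le_right (min (c / 4) (1 / (1000 * C))) (min (min (σ' / 2) (σ₂ / 2))
        (min (c₀ / 8) (B / 4)))).trans (min_le_right _ _)).trans (min_le_right _ _)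
      have h2 : Real.log B = -(201 / 199) * (k * Real.log lam) - (200 / 199) * |Real.log Cb| := by
        rw [hB, Real.log_exp]
      rw [← h2]
      apply Real.log_le_log (by positivity)
      linarith
  have hc₁g : c₁ ≤ 1 / 1000 := by nlinarith
  have hrle : ∀ ζ : ℂ, ‖ζ‖ < 2 * c₁ → -ρ (p - ζ • N) ≤ 4 * c₁ := by
    intro ζ hζ
    have h1 := hrup ζ (by linarith)
    have h2 : ζ.re ≤ ‖ζ‖ := Complex.re_le_norm ζ
    have h3 : C * ‖ζ‖ ^ 2 ≤ ‖ζ‖ := by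
      have : C * ‖ζ‖ ≤ 1 := by
        have : C * ‖ζ‖ ≤ C * (2 * c₁) := by gcongr
        linarith
      nlinarith [norm_nonneg ζ]
    linarith
  -- reachability
  have hreach : ∀ ζ : ℂ, ‖ζ‖ < 2 * c₁ → 0 < -ρ (p - ζ • N) →
      ∃ m : ℕ, ∃ y ∈ A, Chain U lam m (p - ζ • N) y := by
    intro ζ hζ hr
    set K : Set (E n) := (fun t : ℝ => p - (ζ + (t : ℂ) * ((c₀ : ℂ) - ζ)) • N) '' Icc 0 1 with hK
    have hKc : IsPreconnected K := by
      apply IsPreconnected.image isPreconnected_Icc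
      apply Continuous.continuousOn
      fun_prop
    have hc₀ζ : ‖(c₀ : ℂ) - ζ‖ ≤ c₀ + 2 * c₁ := by
      have := norm_sub_le (c₀ : ℂ) ζ
      rw [Complex.norm_real, Real.norm_eq_abs, abs_of_pos hc₀0] at this
      linarith
    have hKU : K ⊆ U := by
      rintro _ ⟨t, ⟨ht0, ht1⟩, rfl⟩
      obtain ⟨κ, hκ, hκ2⟩ := g2 ζ (by linarith)
      have hξn : ‖(t : ℂ) * ((c₀ : ℂ) - ζ)‖ = t * ‖(c₀ : ℂ) - ζ‖ := by
        rw [norm_mul, Complex.norm_real, Real.norm_eq_abs, abs_of_nonneg ht0]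
      have hξle : ‖(t : ℂ) * ((c₀ : ℂ) - ζ)‖ ≤ c₀ + 2 * c₁ := by
        rw [hξn]; nlinarith [norm_nonneg ((c₀ : ℂ) - ζ)]
      apply hzsU
      · calc ‖ζ + (t : ℂ) * ((c₀ : ℂ) - ζ)‖ ≤ ‖ζ‖ + ‖(t : ℂ) * ((c₀ : ℂ) - ζ)‖ := norm_add_le _ _
          _ < σ' := by linarith
      · have h1 := (abs_le.mp (hκ2 ((t : ℂ) * ((c₀ : ℂ) - ζ)) (by linarith))).1
        have h2 : (κ * ((t : ℂ) * ((c₀ : ℂ) - ζ))).re = t * (κ * ((c₀ : ℂ) - ζ)).re := by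
          have : κ * ((t : ℂ) * ((c₀ : ℂ) - ζ)) = (t : ℂ) * (κ * ((c₀ : ℂ) - ζ)) := by ring
          rw [this, Complex.re_ofReal_mul]
        have h3 : c₀ / 4 ≤ (κ * ((c₀ : ℂ) - ζ)).re := by
          have e1 : κ * ((c₀ : ℂ) - ζ) = (c₀ : ℂ) + ((κ - 1) * ((c₀ : ℂ) - ζ) - ζ) := by ring
          rw [e1, Complex.add_re, Complex.ofReal_re]
          have e2 : |((κ - 1) * ((c₀ : ℂ) - ζ) - ζ).re| ≤ 1 / 4 * (c₀ + 2 * c₁) + 2 * c₁ := by
            refine (Complex.abs_re_le_norm _).trans ?_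
            refine (norm_sub_le _ _).trans ?_
            rw [norm_mul]
            have : ‖κ - 1‖ * ‖(c₀ : ℂ) - ζ‖ ≤ 1 / 4 * (c₀ + 2 * c₁) :=
              mul_le_mul hκ hc₀ζ (norm_nonneg _) (by norm_num)
            linarith
          have e3 := (abs_le.mp e2).1
          linarith
        have h4 : C * ‖(t : ℂ) * ((c₀ : ℂ) - ζ)‖ ^ 2 ≤ t * (c₀ / 4) := by
          rw [hξn, mul_pow]
          have e1 : ‖(c₀ : ℂ) - ζ‖ ^ 2 ≤ (5 / 4 * c₀) ^ 2 :=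
            pow_le_pow_left₀ (norm_nonneg _) (by linarith) 2
          have e2 : t ^ 2 ≤ t := by nlinarith
          have e3 : C * (t ^ 2 * ‖(c₀ : ℂ) - ζ‖ ^ 2) ≤ C * (t * (5 / 4 * c₀) ^ 2) := by
            gcongr
          have e4 : C * (t * (5 / 4 * c₀) ^ 2) = (t * c₀) * (25 / 16 * (C * c₀)) := by ring
          have e5 : 25 / 16 * (C * c₀) ≤ 1 / 4 := by linarith
          have e6 : 0 ≤ t * c₀ := by positivity
          have e7 : (t * c₀) * (25 / 16 * (C * c₀)) ≤ (t * c₀) * (1 / 4) :=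
            mul_le_mul_of_nonneg_left e5 e6
          linarith
        rw [h2] at h1
        have h5 : t * (c₀ / 4) ≤ t * (κ * ((c₀ : ℂ) - ζ)).re := by gcongr
        linarith
    obtain ⟨M, hM⟩ := CC n U K lam hlam hUo hKU hKc (p - ζ • N)
      ⟨0, by simp, by simp⟩ (p - (c₀ : ℂ) • N) ⟨1, by simp, by simp⟩
    exact ⟨M, _, hp₀A, hM⟩
  -- the function X
  set X : E n → ℝ := fun x => lam ^ hops U A lam x with hX
  have hX1 : ∀ x, 1 ≤ X x := fun x => one_le_pow₀ hlam.le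
  have hlogX : ∀ x, Real.log (X x) = hops U A lam x * Real.log lam := by
    intro x; simp only [hX]; rw [Real.log_pow]
  have hhops : ∀ ζ : ℂ, ‖ζ‖ < 2 * c₁ → 0 < -ρ (p - ζ • N) →
      0 ≤ Real.log Cb + hops U A lam (p - ζ • N) * (201 / 200) * Real.log lam +
        199 / 200 * Real.log (-ρ (p - ζ • N)) := by
    intro ζ hζ hr
    apply hlbl _ _ (hzsU ζ (by linarith) hr) hr
    have := Nat.sInf_mem (s := {m | ∃ y ∈ A, Chain U lam m (p - ζ • N) y}) (hreach ζ hζ hr)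
    exact this
  have x1 : ∀ ζ : ℂ, ‖ζ‖ < 2 * c₁ → 0 < -ρ (p - ζ • N) →
      Real.log (Real.exp (-(600 / 201) * |Real.log Cb|)) - 71 / 24 * Real.log (-ρ (p - ζ • N)) ≤
        3 * Real.log (X (p - ζ • N)) := by
    intro ζ hζ hr
    have h1 := hhops ζ hζ hr
    rw [Real.log_exp, hlogX]
    have h2 : Real.log (-ρ (p - ζ • N)) ≤ 0 := by
      apply Real.log_nonpos hr.le
      have := hrle ζ hζ
      linarith
    have h3 := le_abs_self (Real.log Cb)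
    nlinarith
  have x2 : ∀ ζ : ℂ, ‖ζ‖ < c₁ → 0 < -ρ (p - ζ • N) → ∃ (ρ₀ : ℝ) (f g : E n → E n) (b : E n),
      1 - 1 / 10 ^ 9 ≤ ρ₀ ∧ IsChart Ω Ω ρ₀ (p - ζ • N) f g ∧ ‖b‖ ≤ 1 ∧
      ∀ a : E n, ‖a‖ ≤ 1 / 2 → X (g a) ≤ Real.exp (1 / 10 ^ 9) * X (p - ζ • N) *
        (‖1 - (inner ℂ b a : ℂ)‖ ^ 2 / (1 - ‖a‖ ^ 2)) := by
    intro ζ hζ hr
    have hzU := hzsU ζ (by linarith) hr
    obtain ⟨f, g, hch⟩ := ch2 (p - ζ • N) ⟨hUΩ hzU, by rw [mem_ball, hzs]; linarith⟩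
    have hkh : k ≤ hops U A lam (p - ζ • N) := by
      have h1 := hhops ζ (by linarith) hr
      have h2 : Real.log (-ρ (p - ζ • N)) ≤ Real.log (4 * c₁) :=
        Real.log_le_log hr (hrle ζ (by linarith))
      have h3 := le_abs_self (Real.log Cb)
      have h4 : (k : ℝ) * Real.log lam ≤ hops U A lam (p - ζ • N) * Real.log lam := by
        nlinarith
      have h5 := le_of_mul_le_mul_right h4 hlogl
      exact_mod_cast h5
    obtain ⟨b, hb, hb2⟩ := HI3 ρ₀ hρ₀a hρ₀1 n Ω U A (p - ζ • N) f g hUΩ hAU hzU hch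
      (hreach ζ (by linarith) hr) hkh
    exact ⟨ρ₀, f, g, b, hρ₀b, ⟨hch.df, hch.mf, hch.fz, hch.dg, fun b hb => hUΩ (hch.mg hb),
      hch.fg, hch.gf⟩, hb, hb2⟩
  -- maximum principle
  obtain ⟨K₀, hK₀, hmin⟩ := minPrinciple VC HD hΩ hΩρ hN hv hNv hD0 hD hC1 g1 g2 v1 v2 hc₁0
    hc₁a hc₁b hX1 (Real.exp_pos _) x1 x2
  -- positivity on the inner normal
  have hpos : ∀ h : ℝ, 0 < h → h < 2 * c₁ → 0 < -ρ (p - (h : ℂ) • N) := by
    intro h hh hh2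
    have hn : ‖(h : ℂ)‖ = h := by rw [Complex.norm_real, Real.norm_eq_abs, abs_of_pos hh]
    have h1 := hrlow (h : ℂ) (by rw [hn]; linarith)
    rw [hn, Complex.ofReal_re] at h1
    have h2 : C * h ^ 2 ≤ h / 2 := by
      have : C * h ≤ C * (2 * c₁) := by gcongr
      nlinarith
    linarith
  -- (d)
  have hd := lower_d VC CL hΩ hΩρ hUΩ hN hv hNv hD0 hD hC0 hlam (min_le_right _ _) hρ₀d hc₁0 hc₁a
    hc₁b hrlow hrup (fun ζ hζ hr => hzsU ζ (by linarith) hr)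
    (fun ζ hζ hr => ch2 (p - ζ • N) ⟨hUΩ (hzsU ζ (by linarith) hr), by
      rw [mem_ball, hzs]; linarith⟩) hreach hlbl hpos
  set c' : ℝ := (ρ₀ / D) ^ 2 * (1 / 32) ^ 2 with hc'
  have hc'0 : 0 < c' := by
    have : 0 < ρ₀ := by linarith
    positivity
  -- final contradiction
  set KK : ℝ := K₀ * (4 * lam * c₀) ^ 3 with hKK
  have hKK0 : 0 < KK := by positivity
  obtain ⟨h, hh, hh1, hh2, hh3⟩ := hd (min 1 (c' / KK) ^ 2) (by positivity)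
  have hr := hpos h hh (by linarith)
  obtain ⟨-, hXup⟩ := hops_upper DC (A := A) hlam hc₀0 hdisc hp₀A hh (by linarith)
  have hm := hmin h hh hh2 hr
  have h1 : (-ρ (p - (h : ℂ) • N)) ^ (1 / 24 : ℝ) ≤ 1 := by
    apply Real.rpow_le_one hr.le _ (by norm_num)
    have := hrle (h : ℂ) (by
      rw [Complex.norm_real, Real.norm_eq_abs, abs_of_pos hh]; linarith)
    linarith
  have h2 : X (p - (h : ℂ) • N) ^ 3 ≤ (4 * lam * c₀ / h) ^ 3 := by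
    apply pow_le_pow_left₀ (by linarith [hX1 (p - (h : ℂ) • N)])
    exact hXup
  have h3 : VV Ω N v (p - (h : ℂ) • N) ≤ KK / h ^ 2 * h ^ (1 / 2 : ℝ) := by
    refine hm.trans ?_
    have e1 : (-ρ (p - (h : ℂ) • N)) ^ (1 / 24 : ℝ) * h ^ (3 / 2 : ℝ) ≤ 1 * h ^ (3 / 2 : ℝ) := by
      gcongr
    have e2 : h ^ (3 / 2 : ℝ) = h * h ^ (1 / 2 : ℝ) := by
      rw [← Real.rpow_one_add' hh.le (by norm_num)]
      norm_num
    calc K₀ * X (p - (h : ℂ) • N) ^ 3 * ((-ρ (p - (h : ℂ) • N)) ^ (1 / 24 : ℝ) *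
          h ^ (3 / 2 : ℝ)) ≤ K₀ * (4 * lam * c₀ / h) ^ 3 * (1 * h ^ (3 / 2 : ℝ)) := by
          gcongr
      _ = KK / h ^ 2 * h ^ (1 / 2 : ℝ) := by
          rw [e2, hKK]
          field_simp
  have h4 : c' / h ^ 2 ≤ KK / h ^ 2 * h ^ (1 / 2 : ℝ) := hh3.trans h3
  have h5 : c' ≤ KK * h ^ (1 / 2 : ℝ) := by
    have e : KK / h ^ 2 * h ^ (1 / 2 : ℝ) = KK * h ^ (1 / 2 : ℝ) / h ^ 2 := by ring
    rw [e] at h4
    exact (div_le_div_iff_of_pos_right (by positivity)).mp h4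
  have h6 : h ^ (1 / 2 : ℝ) < c' / KK := by
    have e1 : h ^ (1 / 2 : ℝ) < (min 1 (c' / KK) ^ 2) ^ (1 / 2 : ℝ) :=
      Real.rpow_lt_rpow hh.le hh1 (by norm_num)
    have e2 : (min 1 (c' / KK) ^ 2) ^ (1 / 2 : ℝ) = min 1 (c' / KK) := by
      rw [← Real.sqrt_eq_rpow, Real.sqrt_sq (by positivity)]
    rw [e2] at e1
    exact e1.trans_le (min_le_right _ _)
  rw [lt_div_iff₀ hKK0] at h6
  linarith

end SqzC4
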