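import Pool.Agent.SqzC4.Localization

/-!
# (J9) existence of the extreme weakly pseudoconvex point
-/

set_option autoImplicit false

open Metric Set

namespace SqzC4

/-- Scaling of the Levi form by a real number. -/
theorem Lev_real_smul {n : ℕ} (ρ : E n → ℝ) (z w : E n) (r : ℝ) :
    Lev ρ z (r • w) = r ^ 2 * Lev ρ z w := by
  have h : Complex.I • (r • w) = r • (Complex.I • w) := smul_comm _ _ _
  unfold Lev
  rw [h]
  simp only [map_smul, smul_apply, smul_eq_mul]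
  ring

theorem continuous_I_smul {n : ℕ} :
    Continuous (fun x : E n × E n => (x.1, Complex.I • x.2)) :=
  continuous_fst.prodMk ((continuous_const_smul Complex.I).comp continuous_snd)

theorem continuous_fderiv_apply {n : ℕ} {ρ : E n → ℝ}
    (hρ : ContDiff ℝ 4 ρ) :
    Continuous (fun x : E n × E n => fderiv ℝ ρ x.1 x.2) := by
  have h1 : Continuous (fderiv ℝ ρ) := hρ.continuous_fderiv (by simp)
  exact (h1.comp continuous_fst).clm_apply continuous_snd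

theorem continuous_fderiv_apply_I {n : ℕ} {ρ : E n → ℝ}
    (hρ : ContDiff ℝ 4 ρ) :
    Continuous (fun x : E n × E n => fderiv ℝ ρ x.1 (Complex.I • x.2)) :=
  (continuous_fderiv_apply hρ).comp continuous_I_smul

theorem continuous_Lev {n : ℕ} {ρ : E n → ℝ}
    (hρ : ContDiff ℝ 4 ρ) :
    Continuous (fun x : E n × E n => Lev ρ x.1 x.2) := by
  have h0 : ContDiff ℝ 3 (fderiv ℝ ρ) :=
    hρ.fderiv_right (by norm_num)
  have h1 : Continuous (fderiv ℝ (fderiv ℝ ρ)) := h0.continuous_fderiv (by simp)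
  have h2 : Continuous (fun x : E n × E n => fderiv ℝ (fderiv ℝ ρ) x.1 x.2 x.2) :=
    ((h1.comp continuous_fst).clm_apply continuous_snd).clm_apply continuous_snd
  have h3 : Continuous (fun x : E n × E n =>
      fderiv ℝ (fderiv ℝ ρ) x.1 (Complex.I • x.2) (Complex.I • x.2)) :=
    h2.comp continuous_I_smul
  exact h2.add h3

/-- normalisation of a null direction -/
theorem exists_unit_null {n : ℕ} (ρ : E n → ℝ) (q w : E n) (hw : w ≠ 0)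
    (hw1 : fderiv ℝ ρ q w = 0) (hw2 : fderiv ℝ ρ q (Complex.I • w) = 0)
    (hw3 : Lev ρ q w = 0) :
    ∃ v : E n, ‖v‖ = 1 ∧ fderiv ℝ ρ q v = 0 ∧ fderiv ℝ ρ q (Complex.I • v) = 0 ∧
        Lev ρ q v = 0 := by
  refine ⟨(‖w‖⁻¹ : ℝ) • w, ?_, ?_, ?_, ?_⟩
  · rw [norm_smul, norm_inv, norm_norm, inv_mul_cancel₀ (norm_ne_zero_iff.mpr hw)]
  · rw [map_smul, hw1, smul_zero]
  · have h : Complex.I • ((‖w‖⁻¹ : ℝ) • w) = (‖w‖⁻¹ : ℝ) • (Complex.I • w) := smul_comm _ _ _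
    rw [h, map_smul, hw2, smul_zero]
  · rw [Lev_real_smul, hw3, mul_zero]

/-- the closed set of null directions -/
theorem isClosed_null {n : ℕ} {ρ : E n → ℝ}
    (hρ : ContDiff ℝ 4 ρ) :
    IsClosed {x : E n × E n | fderiv ℝ ρ x.1 x.2 = 0 ∧
        fderiv ℝ ρ x.1 (Complex.I • x.2) = 0 ∧ Lev ρ x.1 x.2 = 0} :=
  (isClosed_eq (continuous_fderiv_apply hρ) continuous_const).inter
    ((isClosed_eq (continuous_fderiv_apply_I hρ) continuous_const).inter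
      (isClosed_eq (continuous_Lev hρ) continuous_const))

theorem exists_max_null {n : ℕ} {Ω : Set (E n)} {ρ : E n → ℝ}
    (hbdd : Bornology.IsBounded Ω)
    (hρ : ContDiff ℝ 4 ρ)
    (hne : ∃ p₁ ∈ frontier Ω, ∃ v : E n, ‖v‖ = 1 ∧ fderiv ℝ ρ p₁ v = 0 ∧
      fderiv ℝ ρ p₁ (Complex.I • v) = 0 ∧ Lev ρ p₁ v = 0) :
    ∃ p ∈ frontier Ω, ∃ v : E n, ‖v‖ = 1 ∧ fderiv ℝ ρ p v = 0 ∧
      fderiv ℝ ρ p (Complex.I • v) = 0 ∧ Lev ρ p v = 0 ∧
      ∀ q ∈ frontier Ω, ∀ w : E n, ‖w‖ = 1 → fderiv ℝ ρ q w = 0 →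
        fderiv ℝ ρ q (Complex.I • w) = 0 → Lev ρ q w = 0 → ‖q‖ ≤ ‖p‖ := by
  have hfr : IsCompact (frontier Ω) := by
    refine Metric.isCompact_of_isClosed_isBounded isClosed_frontier ?_
    exact hbdd.closure.subset frontier_subset_closure
  have hprod : IsCompact (frontier Ω ×ˢ sphere (0 : E n) 1) := hfr.prod (isCompact_sphere _ _)
  have hKc := hprod.inter_right (isClosed_null hρ)
  have hKn : ((frontier Ω ×ˢ sphere (0 : E n) 1) ∩ {x : E n × E n | fderiv ℝ ρ x.1 x.2 = 0 ∧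
        fderiv ℝ ρ x.1 (Complex.I • x.2) = 0 ∧ Lev ρ x.1 x.2 = 0}).Nonempty := by
    obtain ⟨p₁, hp₁, v, hv, hv1, hv2, hv3⟩ := hne
    exact ⟨(p₁, v), ⟨hp₁, mem_sphere_zero_iff_norm.mpr hv⟩, hv1, hv2, hv3⟩
  have hcont : Continuous (fun x : E n × E n => ‖x.1‖) := continuous_fst.norm
  obtain ⟨x, hx, hmax⟩ := hKc.exists_isMaxOn hKn hcont.continuousOn
  obtain ⟨⟨hx1, hx2⟩, hx3, hx4, hx5⟩ := hx
  refine ⟨x.1, hx1, x.2, mem_sphere_zero_iff_norm.mp hx2, hx3, hx4, hx5, ?_⟩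
  intro q hq w hw hw1 hw2 hw3
  have hmem : ((q, w) : E n × E n) ∈ ((frontier Ω ×ˢ sphere (0 : E n) 1) ∩
      {x : E n × E n | fderiv ℝ ρ x.1 x.2 = 0 ∧
        fderiv ℝ ρ x.1 (Complex.I • x.2) = 0 ∧ Lev ρ x.1 x.2 = 0}) :=
    ⟨⟨hq, mem_sphere_zero_iff_norm.mpr hw⟩, hw1, hw2, hw3⟩
  have h := isMaxOn_iff.mp hmax (q, w) hmem
  exact h

theorem existsP : ExistsP := by
  intro n Ω ρ hD p₁ hp₁ w₁ hw₁ h1 h2 h3
  have hLev : Lev ρ p₁ w₁ = 0 := le_antisymm (not_lt.mp h3) (hD.levi p₁ hp₁ w₁ h1 h2)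
  obtain ⟨p, hp, v, hv, hv1, hv2, hv3, hmax⟩ := exists_max_null hD.bdd hD.smooth
    ⟨p₁, hp₁, exists_unit_null ρ p₁ w₁ hw₁ h1 h2 hLev⟩
  refine ⟨p, hp, v, hv, hv1, hv2, hv3, noDisc_of_max hD ?_⟩
  intro q hq w hw hw1 hw2 hw3
  obtain ⟨v', hv', hv1', hv2', hv3'⟩ := exists_unit_null ρ q w hw hw1 hw2 hw3
  exact hmax q hq v' hv' hv1' hv2' hv3'

end SqzC4
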