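import Mathlib
import Pool.Agent.SqzC4.Spec

/-!
# Levi lower bound near a boundary point (Lemma (2.1) of the blueprint, MP_ab90d5_an)
-/

set_option autoImplicit false

open Metric Set Filter Topology

namespace SqzC4

/-- the complex linear form `ℓ w = A w - i A(iw)`. -/
theorem norm_cform {n : ℕ} (A : E n →L[ℝ] ℝ) (w : E n) :
    ‖((A w : ℂ) - Complex.I * (A (Complex.I • w) : ℂ))‖
      = Real.sqrt ((A w) ^ 2 + (A (Complex.I • w)) ^ 2) := by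
  have : ((A w : ℂ) - Complex.I * (A (Complex.I • w) : ℂ))
      = ((A w : ℝ) : ℂ) + ((-(A (Complex.I • w)) : ℝ) : ℂ) * Complex.I := by
    push_cast; ring
  rw [this, Complex.norm_add_mul_I]
  congr 1
  ring

theorem II_smul {n : ℕ} (w : E n) : Complex.I • (Complex.I • w) = -w := by
  rw [smul_smul, Complex.I_mul_I, neg_one_smul]

/-- decomposition `w = w_T + c N`. -/
theorem exists_decomp {n : ℕ} (A : E n →L[ℝ] ℝ) (N w : E n) (hN : 1 / 2 ≤ A N) :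
    ∃ u : E n, A (w - u) = 0 ∧ A (Complex.I • (w - u)) = 0 ∧
      ‖u‖ ≤ 2 * ‖N‖ * Real.sqrt ((A w) ^ 2 + (A (Complex.I • w)) ^ 2) := by
  set ℓ : E n → ℂ := fun w => (A w : ℂ) - Complex.I * (A (Complex.I • w) : ℂ) with hℓ
  have hlin : ∀ (c : ℂ) (x : E n), ℓ (c • x) = c * ℓ x := by
    intro c x
    have h1 : c • x = (c.re : ℝ) • x + (c.im : ℝ) • (Complex.I • x) := by
      rw [← Complex.coe_smul, ← Complex.coe_smul, smul_smul, ← add_smul, Complex.re_add_im]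
    have h2 : Complex.I • (c • x) = (c.re : ℝ) • (Complex.I • x) - (c.im : ℝ) • x := by
      rw [h1, smul_add, smul_comm Complex.I (c.re : ℝ), smul_comm Complex.I (c.im : ℝ),
        II_smul, smul_neg, sub_eq_add_neg]
    simp only [hℓ]
    rw [h2, h1]
    simp only [map_add, map_sub, map_smul, smul_eq_mul]
    push_cast
    apply Complex.ext
    · simp
    · simp
      ring
  have hadd : ∀ x y : E n, ℓ (x - y) = ℓ x - ℓ y := by
    intro x y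
    simp only [hℓ, smul_sub, map_sub]
    push_cast
    ring
  have hNl : 1 / 2 ≤ ‖ℓ N‖ := by
    have : |(ℓ N).re| ≤ ‖ℓ N‖ := Complex.abs_re_le_norm _
    have hre : (ℓ N).re = A N := by simp [hℓ]
    rw [hre] at this
    exact (hN.trans (le_abs_self _)).trans this
  have hN0 : ℓ N ≠ 0 := by
    intro h
    rw [h, norm_zero] at hNl
    norm_num at hNl
  refine ⟨(ℓ w / ℓ N) • N, ?_, ?_, ?_⟩
  · have : ℓ (w - (ℓ w / ℓ N) • N) = 0 := by
      rw [hadd, hlin, div_mul_cancel₀ _ hN0, sub_self]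
    have h2 : (ℓ (w - (ℓ w / ℓ N) • N)).re = A (w - (ℓ w / ℓ N) • N) := by simp [hℓ]
    rw [← h2, this, Complex.zero_re]
  · have : ℓ (w - (ℓ w / ℓ N) • N) = 0 := by
      rw [hadd, hlin, div_mul_cancel₀ _ hN0, sub_self]
    have h2 : (ℓ (w - (ℓ w / ℓ N) • N)).im = - A (Complex.I • (w - (ℓ w / ℓ N) • N)) := by
      simp [hℓ]
    have h3 := h2
    rw [this, Complex.zero_im] at h3
    linarith
  · rw [norm_smul, norm_div, norm_cform A w |>.symm]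
    change ‖ℓ w‖ / ‖ℓ N‖ * ‖N‖ ≤ 2 * ‖N‖ * ‖ℓ w‖
    have h4 : ‖ℓ w‖ / ‖ℓ N‖ ≤ 2 * ‖ℓ w‖ := by
      rw [div_le_iff₀ (by linarith)]
      nlinarith [norm_nonneg (ℓ w)]
    nlinarith [norm_nonneg N, norm_nonneg (ℓ w)]

/-- Perturbation of the Levi form in the vector. -/
theorem lev_vec {n : ℕ} (B : E n →L[ℝ] E n →L[ℝ] ℝ) (K : ℝ) (hB : ‖B‖ ≤ K) (x u : E n)
    (hx : 0 ≤ B x x + B (Complex.I • x) (Complex.I • x)) :
    -(4 * K * ‖x‖ * ‖u‖ + 2 * K * ‖u‖ ^ 2) ≤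
      B (x + u) (x + u) + B (Complex.I • (x + u)) (Complex.I • (x + u)) := by
  have key : ∀ a b : E n, |B a b| ≤ K * ‖a‖ * ‖b‖ := by
    intro a b
    have h1 := B.le_opNorm₂ a b
    rw [Real.norm_eq_abs] at h1
    refine h1.trans ?_
    gcongr
  have nI : ∀ a : E n, ‖Complex.I • a‖ = ‖a‖ := by
    intro a; rw [norm_smul, Complex.norm_I, one_mul]
  have e1 : B (x + u) (x + u) = B x x + B x u + B u x + B u u := by
    simp only [map_add, add_apply]; ring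
  have e2 : B (Complex.I • (x + u)) (Complex.I • (x + u)) =
      B (Complex.I • x) (Complex.I • x) + B (Complex.I • x) (Complex.I • u)
      + B (Complex.I • u) (Complex.I • x) + B (Complex.I • u) (Complex.I • u) := by
    simp only [smul_add, map_add, add_apply]; ring
  rw [e1, e2]
  have k1 := (abs_le.1 (key x u)).1
  have k2 := (abs_le.1 (key u x)).1
  have k3 := (abs_le.1 (key u u)).1
  have k4 := (abs_le.1 (key (Complex.I • x) (Complex.I • u))).1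
  have k5 := (abs_le.1 (key (Complex.I • u) (Complex.I • x))).1
  have k6 := (abs_le.1 (key (Complex.I • u) (Complex.I • u))).1
  simp only [nI] at k4 k5 k6
  nlinarith


theorem cform_pert {n : ℕ} (A A₀ : E n →L[ℝ] ℝ) (d : ℝ) (hd : ‖A - A₀‖ ≤ d) (w : E n) :
    Real.sqrt ((A w) ^ 2 + (A (Complex.I • w)) ^ 2) ≤
      Real.sqrt ((A₀ w) ^ 2 + (A₀ (Complex.I • w)) ^ 2) + 2 * d * ‖w‖ := by
  rw [← norm_cform, ← norm_cform]
  have h1 : ((A w : ℂ) - Complex.I * (A (Complex.I • w) : ℂ)) =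
      ((A₀ w : ℂ) - Complex.I * (A₀ (Complex.I • w) : ℂ)) +
      (((A - A₀) w : ℝ) - Complex.I * (((A - A₀) (Complex.I • w) : ℝ) : ℂ)) := by
    simp only [sub_apply]
    push_cast
    ring
  rw [h1]
  refine (norm_add_le _ _).trans ?_
  gcongr
  refine (norm_sub_le _ _).trans ?_
  rw [norm_mul, Complex.norm_I, one_mul, Complex.norm_real, Complex.norm_real]
  have h2 := (A - A₀).le_opNorm w
  have h3 := (A - A₀).le_opNorm (Complex.I • w)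
  rw [norm_smul, Complex.norm_I, one_mul] at h3
  have h4 : ‖A - A₀‖ * ‖w‖ ≤ d * ‖w‖ := by gcongr
  linarith

/-- Nearest boundary point in the direction `N`. -/
theorem exists_boundary {n : ℕ} (Ω : Set (E n)) (ρ : E n → ℝ) (hopen : IsOpen Ω)
    (hdiff : Differentiable ℝ ρ) (heq : Ω = {x | ρ x < 0}) (z N : E n) (hz : z ∈ Ω)
    (hder : ∀ t ∈ Icc (0 : ℝ) (2 * (-ρ z)), 1 / 2 < fderiv ℝ ρ (z + t • N) N) :
    ∃ t ∈ Icc (0 : ℝ) (2 * (-ρ z)), z + t • N ∈ frontier Ω := by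
  have hr : 0 < -ρ z := by
    rw [heq] at hz
    have : ρ z < 0 := hz
    linarith
  set r := -ρ z with hrdef
  set f : ℝ → ℝ := fun t => ρ (z + t • N) with hf
  have hfd : ∀ t, HasDerivAt f (fderiv ℝ ρ (z + t • N) N) t := by
    intro t
    have h1 : HasDerivAt (fun t : ℝ => z + t • N) N t := by
      simpa using ((hasDerivAt_id t).smul_const N).const_add z
    exact (hdiff (z + t • N)).hasFDerivAt.comp_hasDerivAt t h1
  have hfc : Continuous f := continuous_iff_continuousAt.2 fun t => (hfd t).continuousAt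
  have hmono : ∀ x ∈ Icc (0 : ℝ) (2 * r), ∀ y ∈ Icc (0 : ℝ) (2 * r), x ≤ y →
      1 / 2 * (y - x) ≤ f y - f x := by
    refine (convex_Icc (0 : ℝ) (2 * r)).mul_sub_le_image_sub_of_le_deriv hfc.continuousOn
      (fun x _ => (hfd x).differentiableAt.differentiableWithinAt) ?_
    intro x hx
    rw [(hfd x).deriv]
    exact (hder x (interior_subset hx)).le
  have h0 : f 0 = -r := by simp [hf, hrdef]
  have h2r : 0 ≤ f (2 * r) := by
    have := hmono 0 (by constructor <;> linarith) (2 * r) (by constructor <;> linarith)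
      (by linarith)
    rw [h0] at this
    linarith
  obtain ⟨t, ht, htf⟩ := intermediate_value_Icc (a := 0) (b := 2 * r) (by linarith)
    hfc.continuousOn (show (0 : ℝ) ∈ Icc (f 0) (f (2 * r)) by rw [h0]; constructor <;> linarith)
  have ht0 : t ≠ 0 := by
    rintro rfl
    rw [h0] at htf
    linarith
  have htpos : 0 < t := lt_of_le_of_ne ht.1 (Ne.symm ht0)
  refine ⟨t, ht, ?_⟩
  rw [hopen.frontier_eq]
  constructor
  · have hcl : t ∈ closure (Ico (0 : ℝ) t) := by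
      rw [closure_Ico (Ne.symm ht0)]
      exact right_mem_Icc.2 ht.1
    have hcont : Continuous (fun t : ℝ => z + t • N) := by fun_prop
    have h3 := image_closure_subset_closure_image hcont (mem_image_of_mem _ hcl)
    refine closure_mono ?_ h3
    rintro _ ⟨x, hx, rfl⟩
    rw [heq]
    have h4 := hmono x ⟨hx.1, hx.2.le.trans ht.2⟩ t ht hx.2.le
    rw [htf] at h4
    have h5 : 0 < t - x := by linarith [hx.2]
    change f x < 0
    linarith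
  · rw [heq]
    change ¬ f t < 0
    rw [htf]
    exact lt_irrefl _

theorem levi_lower {n : ℕ} (Ω : Set (E n)) (ρ : E n → ℝ) (h : Dom n Ω ρ) (q : E n)
    (hq : q ∈ frontier Ω) :
    ∃ C : ℝ, 1 ≤ C ∧ ∃ s : ℝ, 0 < s ∧ ∀ z ∈ Ω ∩ ball q s, ∀ w : E n,
      -C * (-ρ z) * ‖w‖ ^ 2 - C * ‖w‖ * Real.sqrt ((fderiv ℝ ρ z w) ^ 2
        + (fderiv ℝ ρ z (Complex.I • w)) ^ 2) ≤ Lev ρ z w := by
  have hρ := h.smooth
  have hD : ContDiff ℝ 3 (fderiv ℝ ρ) := hρ.fderiv_right (by norm_num)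
  have hD2 : ContDiff ℝ 2 (fderiv ℝ (fderiv ℝ ρ)) :=
    hD.fderiv_right (by norm_num)
  -- Lipschitz constants
  obtain ⟨K1, t1, ht1, hK1⟩ := (hD.of_le (m := 1) (by norm_num)).contDiffAt (x := q)
    |>.exists_lipschitzOnWith
  obtain ⟨K2, t2, ht2, hK2⟩ := (hD2.of_le (m := 1) (by norm_num)).contDiffAt (x := q)
    |>.exists_lipschitzOnWith
  obtain ⟨K0, t0, ht0, hK0⟩ := (hρ.of_le (m := 1) (by norm_num)).contDiffAt (x := q)
    |>.exists_lipschitzOnWith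
  -- normal
  obtain ⟨e, he⟩ : ∃ e, fderiv ℝ ρ q e ≠ 0 := by
    by_contra hcon
    push Not at hcon
    exact h.grad q hq (ContinuousLinearMap.ext hcon)
  set N : E n := (fderiv ℝ ρ q e)⁻¹ • e with hNdef
  have hN : fderiv ℝ ρ q N = 1 := by
    rw [hNdef, map_smul, smul_eq_mul, inv_mul_cancel₀ he]
  have hN2 : ∀ᶠ z in 𝓝 q, 1 / 2 < fderiv ℝ ρ z N := by
    have hc : Continuous fun z => fderiv ℝ ρ z N := hD.continuous.clm_apply continuous_const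
    have h1 : (1 : ℝ) / 2 < fderiv ℝ ρ q N := by rw [hN]; norm_num
    exact hc.continuousAt.eventually (lt_mem_nhds h1)
  have hA : ∀ᶠ z in 𝓝 q, ‖fderiv ℝ ρ z‖ < ‖fderiv ℝ ρ q‖ + 1 :=
    (hD.continuous.norm.continuousAt).eventually (gt_mem_nhds (lt_add_one _))
  have hB : ∀ᶠ z in 𝓝 q, ‖fderiv ℝ (fderiv ℝ ρ) z‖ < ‖fderiv ℝ (fderiv ℝ ρ) q‖ + 1 := by
    have hc := hD2.continuous.continuousAt (x := q)
    filter_upwards [hc (Metric.ball_mem_nhds _ one_pos)] with z hz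
    have hz' : ‖fderiv ℝ (fderiv ℝ ρ) z - fderiv ℝ (fderiv ℝ ρ) q‖ < 1 :=
      lt_of_eq_of_lt (dist_eq_norm (fderiv ℝ (fderiv ℝ ρ) z) (fderiv ℝ (fderiv ℝ ρ) q)).symm hz
    have h1 : ‖fderiv ℝ (fderiv ℝ ρ) z‖ ≤ ‖fderiv ℝ (fderiv ℝ ρ) q‖ +
        ‖fderiv ℝ (fderiv ℝ ρ) z - fderiv ℝ (fderiv ℝ ρ) q‖ :=
      norm_le_norm_add_norm_sub' (fderiv ℝ (fderiv ℝ ρ) z) (fderiv ℝ (fderiv ℝ ρ) q)
    linarith
  obtain ⟨δ, hδ, hball⟩ := Metric.eventually_nhds_iff_ball.1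
    ((hN2.and (hA.and hB)).and (Filter.inter_mem ht0 (Filter.inter_mem ht1 ht2)))
  obtain ⟨K, hK1', hK0', hK1'', hK2', hKA, hKB⟩ : ∃ K : ℝ, 1 ≤ K ∧ (K0 : ℝ) ≤ K ∧ (K1 : ℝ) ≤ K ∧
      (K2 : ℝ) ≤ K ∧ ‖fderiv ℝ ρ q‖ + 1 ≤ K ∧ ‖fderiv ℝ (fderiv ℝ ρ) q‖ + 1 ≤ K := by
    refine ⟨1 + K0 + K1 + K2 + (‖fderiv ℝ ρ q‖ + 1) + (‖fderiv ℝ (fderiv ℝ ρ) q‖ + 1),
      ?_, ?_, ?_, ?_, ?_, ?_⟩ <;>
    nlinarith [K0.coe_nonneg, K1.coe_nonneg, K2.coe_nonneg, norm_nonneg (fderiv ℝ ρ q),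
      norm_nonneg (fderiv ℝ (fderiv ℝ ρ) q)]
  have hNpos : 0 ≤ ‖N‖ := norm_nonneg N
  have hden : 0 < 1 + 2 * K * ‖N‖ := by positivity
  have hs : 0 < δ / (1 + 2 * K * ‖N‖) := by positivity
  have hsδ : δ / (1 + 2 * K * ‖N‖) ≤ δ := by
    rw [div_le_iff₀ hden]
    nlinarith [mul_nonneg (mul_nonneg zero_le_two (zero_le_one.trans hK1')) hNpos]
  set M := 4 * K * ‖N‖ with hM
  have hMpos : 0 ≤ M := by positivity
  set C1 := K * (4 + 6 * M) * (2 * ‖N‖) with hC1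
  have hC1pos : 0 ≤ C1 := by positivity
  refine ⟨1 + C1 + (C1 * (4 * K * ‖N‖) + 4 * K * ‖N‖), by
    have : 0 ≤ C1 * (4 * K * ‖N‖) := by positivity
    linarith, _, hs, ?_⟩
  rintro z ⟨hz, hzs⟩ w
  have hzδ : z ∈ ball q δ := ball_subset_ball hsδ hzs
  have hq0 : 0 ≤ ρ q := by
    have : q ∉ Ω := by
      rw [h.isOpen.frontier_eq] at hq
      exact hq.2
    rw [h.eq] at this
    exact not_lt.1 this
  have hrpos : 0 < -ρ z := by
    have := hz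
    rw [h.eq] at this
    have h2 : ρ z < 0 := this
    linarith
  have hdzq : dist z q < δ / (1 + 2 * K * ‖N‖) := hzs
  have hrK : -ρ z ≤ K * dist z q := by
    have h1 := hK0.dist_le_mul z (hball z hzδ).2.1 q (hball q (mem_ball_self hδ)).2.1
    rw [Real.dist_eq] at h1
    have h2 := (abs_le.1 h1).1
    have h3 : (K0 : ℝ) * dist z q ≤ K * dist z q := by gcongr
    linarith
  have hseg : ∀ t ∈ Icc (0 : ℝ) (2 * (-ρ z)), z + t • N ∈ ball q δ := by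
    intro t ht
    rw [mem_ball, dist_eq_norm]
    have h1 : z + t • N - q = (z - q) + t • N := by abel
    rw [h1]
    refine (norm_add_le _ _).trans_lt ?_
    rw [norm_smul, Real.norm_of_nonneg ht.1, ← dist_eq_norm]
    have h2 : t * ‖N‖ ≤ 2 * (K * dist z q) * ‖N‖ := by
      have : t ≤ 2 * (K * dist z q) := ht.2.trans (by linarith)
      gcongr
    have h3 : (1 + 2 * K * ‖N‖) * dist z q < δ := by
      rw [lt_div_iff₀ hden] at hdzq
      linarith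
    linarith
  obtain ⟨t, ht, hfr⟩ := exists_boundary Ω ρ h.isOpen (hρ.differentiable (by simp)) h.eq z N hz
    (fun t ht => (hball _ (hseg t ht)).1.1)
  set q' := z + t • N with hq'
  have hq'δ : q' ∈ ball q δ := hseg t ht
  have hdist : dist q' z ≤ 2 * (-ρ z) * ‖N‖ := by
    rw [dist_eq_norm, hq', add_sub_cancel_left, norm_smul, Real.norm_of_nonneg ht.1]
    gcongr
    exact ht.2
  have hAd : ‖fderiv ℝ ρ q' - fderiv ℝ ρ z‖ ≤ K * (2 * (-ρ z) * ‖N‖) := by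
    have h1 := hK1.dist_le_mul q' (hball q' hq'δ).2.2.1 z (hball z hzδ).2.2.1
    refine (dist_eq_norm (fderiv ℝ ρ q') (fderiv ℝ ρ z)).symm.le.trans (h1.trans ?_)
    gcongr
  have hBd : ‖fderiv ℝ (fderiv ℝ ρ) q' - fderiv ℝ (fderiv ℝ ρ) z‖ ≤ K * (2 * (-ρ z) * ‖N‖) := by
    have h1 := hK2.dist_le_mul q' (hball q' hq'δ).2.2.2 z (hball z hzδ).2.2.2
    refine (dist_eq_norm (fderiv ℝ (fderiv ℝ ρ) q') (fderiv ℝ (fderiv ℝ ρ) z)).symm.le.trans
      (h1.trans ?_)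
    gcongr
  set A := fderiv ℝ ρ q' with hAdef
  set A₀ := fderiv ℝ ρ z with hA₀def
  set B := fderiv ℝ (fderiv ℝ ρ) q' with hBdef
  set B₀ := fderiv ℝ (fderiv ℝ ρ) z with hB₀def
  set r := -ρ z with hr
  set P := Real.sqrt ((A₀ w) ^ 2 + (A₀ (Complex.I • w)) ^ 2) with hP
  have hPpos : 0 ≤ P := Real.sqrt_nonneg _
  have hAK : ‖A‖ ≤ K := (hball q' hq'δ).1.2.1.le.trans hKA
  have hBK : ‖B‖ ≤ K := (hball q' hq'δ).1.2.2.le.trans hKB
  have hAN : 1 / 2 ≤ A N := (hball q' hq'δ).1.1.le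
  obtain ⟨u, hu1, hu2, hu3⟩ := exists_decomp A N w hAN
  have hPA1 : Real.sqrt ((A w) ^ 2 + (A (Complex.I • w)) ^ 2) ≤
      P + 2 * (K * (2 * r * ‖N‖)) * ‖w‖ := cform_pert A A₀ _ hAd w
  have hPA2 : Real.sqrt ((A w) ^ 2 + (A (Complex.I • w)) ^ 2) ≤ 2 * K * ‖w‖ := by
    have := cform_pert A 0 K (by simpa using hAK) w
    simpa using this
  have hwpos : 0 ≤ ‖w‖ := norm_nonneg w
  have hu4 : ‖u‖ ≤ M * ‖w‖ := by
    refine hu3.trans ?_
    have : 2 * ‖N‖ * Real.sqrt ((A w) ^ 2 + (A (Complex.I • w)) ^ 2) ≤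
      2 * ‖N‖ * (2 * K * ‖w‖) := by gcongr
    refine this.trans (le_of_eq ?_)
    rw [hM]; ring
  have hu5 : ‖u‖ ≤ 2 * ‖N‖ * (P + 2 * (K * (2 * r * ‖N‖)) * ‖w‖) := by
    refine hu3.trans ?_
    gcongr
  have hlev0 : 0 ≤ B (w - u) (w - u) + B (Complex.I • (w - u)) (Complex.I • (w - u)) :=
    h.levi q' hfr (w - u) hu1 hu2
  have hlv := lev_vec B K hBK (w - u) u hlev0
  rw [sub_add_cancel] at hlv
  have hupos : 0 ≤ ‖u‖ := norm_nonneg u
  have hwu : ‖w - u‖ ≤ (1 + M) * ‖w‖ := by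
    refine (norm_sub_le _ _).trans ?_
    linarith
  have hKpos : 0 < K := by linarith
  have e1 : 4 * K * ‖w - u‖ * ‖u‖ + 2 * K * ‖u‖ ^ 2 ≤ K * (4 + 6 * M) * ‖w‖ * ‖u‖ := by
    have a1 : 4 * K * ‖w - u‖ * ‖u‖ ≤ 4 * K * ((1 + M) * ‖w‖) * ‖u‖ := by gcongr
    have a2 : 2 * K * ‖u‖ ^ 2 ≤ 2 * K * ((M * ‖w‖) * ‖u‖) := by
      rw [sq]; gcongr
    linarith
  have e2 : K * (4 + 6 * M) * ‖w‖ * ‖u‖ ≤
      K * (4 + 6 * M) * ‖w‖ * (2 * ‖N‖ * (P + 2 * (K * (2 * r * ‖N‖)) * ‖w‖)) := by gcongr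
  have nI : ∀ a : E n, ‖Complex.I • a‖ = ‖a‖ := by
    intro a; rw [norm_smul, Complex.norm_I, one_mul]
  have e3 : ∀ a : E n, B a a - K * (2 * r * ‖N‖) * ‖a‖ ^ 2 ≤ B₀ a a := by
    intro a
    have h1 := (B - B₀).le_opNorm₂ a a
    rw [Real.norm_eq_abs] at h1
    have h2 := (abs_le.1 h1).2
    simp only [sub_apply] at h2
    have h3 : ‖B - B₀‖ * ‖a‖ * ‖a‖ ≤ K * (2 * r * ‖N‖) * ‖a‖ * ‖a‖ := by gcongr
    have h4 : K * (2 * r * ‖N‖) * ‖a‖ * ‖a‖ = K * (2 * r * ‖N‖) * ‖a‖ ^ 2 := by ring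
    linarith
  have e4 := e3 w
  have e5 := e3 (Complex.I • w)
  rw [nI] at e5
  have e6 : Lev ρ z w = B₀ w w + B₀ (Complex.I • w) (Complex.I • w) := rfl
  rw [e6]
  have e7 : K * (4 + 6 * M) * ‖w‖ * (2 * ‖N‖ * (P + 2 * (K * (2 * r * ‖N‖)) * ‖w‖)) =
      C1 * (‖w‖ * P) + C1 * (4 * K * ‖N‖) * (r * ‖w‖ ^ 2) := by
    rw [hC1]; ring
  have p1 : 0 ≤ ‖w‖ * P := by positivity
  have p2 : 0 ≤ r * ‖w‖ ^ 2 := by positivity
  have p3 : 0 ≤ (C1 * (4 * K * ‖N‖) + 4 * K * ‖N‖) := by positivity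
  have goal1 : -(1 + C1 + (C1 * (4 * K * ‖N‖) + 4 * K * ‖N‖)) * r * ‖w‖ ^ 2 -
      (1 + C1 + (C1 * (4 * K * ‖N‖) + 4 * K * ‖N‖)) * ‖w‖ * P =
      -(C1 * (‖w‖ * P) + C1 * (4 * K * ‖N‖) * (r * ‖w‖ ^ 2)) - 2 * (K * (2 * r * ‖N‖) * ‖w‖ ^ 2)
      - ((1 + C1) * (r * ‖w‖ ^ 2)
        + (1 + (C1 * (4 * K * ‖N‖) + 4 * K * ‖N‖)) * (‖w‖ * P)) := by
    ring
  rw [goal1]
  have p4 : 0 ≤ (1 + C1) * (r * ‖w‖ ^ 2)
        + (1 + (C1 * (4 * K * ‖N‖) + 4 * K * ‖N‖)) * (‖w‖ * P) := by positivity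
  linarith

end SqzC4
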