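import Pool.Agent.SqzC4.Hopf
import Pool.Agent.SqzC4.Levi

/-!
# J2: the Hopf lemma
-/

set_option autoImplicit false

namespace SqzC4

/-- Target (J2). -/
theorem hopfLemma : HopfLemma :=
  hopfLemma_of fun n Ω ρ h q hq => levi_lower Ω ρ h q hq

end SqzC4
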