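import Pool.Agent.SqzC4.Spec

/-!
# (J5) chains in charts and the second order inequality for the number of steps
-/

set_option autoImplicit false

open Metric Set Filter Topology
open scoped ComplexConjugate

namespace SqzC4

/-- (J5a) -/
theorem ballChain (h : DiscChain) : BallChain := by
  intro n U lam ρ₀ M g a b hlam hρ hg hmg ha hb hY
  have hρ2 : 0 < ρ₀ ^ 2 := by positivity
  by_cases hab : a = b
  · subst hab
    have ha' : ‖a‖ ^ 2 < ρ₀ ^ 2 := by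
      have := norm_nonneg a
      nlinarith
    have h4 : (4 : ℝ) ≤ lam ^ M := by
      refine le_trans (le_of_eq ?_) hY
      have e1 : (inner ℂ a a : ℂ) = ((‖a‖ ^ 2 : ℝ) : ℂ) := by
        rw [inner_self_eq_norm_sq_to_K]; push_cast; rfl
      have e2 : (1 : ℂ) - (inner ℂ a a : ℂ) / ρ₀ ^ 2 = ((1 - ‖a‖ ^ 2 / ρ₀ ^ 2 : ℝ) : ℂ) := by
        rw [e1]; push_cast; ring
      have e3 : 0 < 1 - ‖a‖ ^ 2 / ρ₀ ^ 2 := by
        rw [sub_pos, div_lt_one hρ2]; exact ha'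
      rw [e2, Complex.norm_real, Real.norm_of_nonneg e3.le]
      field_simp
      rw [div_self]
      linarith
    have hga : g a ∈ U := hmg (by simpa using ha)
    have := h n U lam M (fun _ => g a) 0 0 hlam (differentiableOn_const _)
      (fun _ _ => hga) (by simp) (by simp) (by simpa using h4)
    exact this
  · have hd : 0 < ‖b - a‖ := norm_pos_iff.mpr (sub_ne_zero.mpr (Ne.symm hab))
    set d : ℝ := ‖b - a‖ with hd_def
    obtain ⟨e, he, hbe⟩ : ∃ e : E n, ‖e‖ = 1 ∧ b = a + (d : ℂ) • e := by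
      refine ⟨((d⁻¹ : ℝ) : ℂ) • (b - a), ?_, ?_⟩
      · rw [norm_smul, Complex.norm_real, norm_inv, Real.norm_of_nonneg hd.le,
          ← hd_def, inv_mul_cancel₀ hd.ne']
      · rw [smul_smul, ← Complex.ofReal_mul, mul_inv_cancel₀ hd.ne', Complex.ofReal_one,
          one_smul]
        abel
    set α₀ : ℂ := inner ℂ e a with hα₀
    set β₀ : ℂ := α₀ + d with hβ₀
    set c : E n := a - α₀ • e with hc_def
    have hee : (inner ℂ e e : ℂ) = 1 := by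
      rw [inner_self_eq_norm_sq_to_K, he]; simp
    have hec : (inner ℂ e c : ℂ) = 0 := by
      rw [hc_def, inner_sub_right, inner_smul_right, hee, ← hα₀]; ring
    have hce : (inner ℂ c e : ℂ) = 0 := by
      rw [← inner_conj_symm, hec, map_zero]
    have haeq : a = c + α₀ • e := by rw [hc_def]; abel
    have hbeq : b = c + β₀ • e := by
      rw [hbe, haeq, hβ₀, add_smul]; abel
    have hnorm : ∀ s : ℂ, ‖c + s • e‖ ^ 2 = ‖c‖ ^ 2 + ‖s‖ ^ 2 := by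
      intro s
      have h1 := norm_add_sq (𝕜 := ℂ) c (s • e)
      rw [h1, inner_smul_right, hce, norm_smul, he]
      simp
    have hinner : (inner ℂ b a : ℂ) = ((‖c‖ ^ 2 : ℝ) : ℂ) + conj β₀ * α₀ := by
      rw [hbeq, haeq, inner_add_left, inner_add_right, inner_add_right, inner_smul_left,
        inner_smul_left, inner_smul_right, inner_smul_right, hce, hec, hee,
        inner_self_eq_norm_sq_to_K]
      push_cast
      simp
    have ha2 : ‖a‖ ^ 2 = ‖c‖ ^ 2 + ‖α₀‖ ^ 2 := by rw [← hnorm α₀, ← haeq]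
    have hb2 : ‖b‖ ^ 2 = ‖c‖ ^ 2 + ‖β₀‖ ^ 2 := by rw [← hnorm β₀, ← hbeq]
    have ha' : ‖a‖ ^ 2 < ρ₀ ^ 2 := by
      have := norm_nonneg a
      nlinarith
    have hb' : ‖b‖ ^ 2 < ρ₀ ^ 2 := by
      have := norm_nonneg b
      nlinarith
    have hϱ2 : 0 < ρ₀ ^ 2 - ‖c‖ ^ 2 := by nlinarith [sq_nonneg ‖α₀‖]
    set ϱ : ℝ := Real.sqrt (ρ₀ ^ 2 - ‖c‖ ^ 2) with hϱ
    have hϱp : 0 < ϱ := Real.sqrt_pos.mpr hϱ2
    have hϱsq : ϱ ^ 2 = ρ₀ ^ 2 - ‖c‖ ^ 2 := Real.sq_sqrt hϱ2.le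
    have hϱc : (ϱ : ℂ) ≠ 0 := by exact_mod_cast hϱp.ne'
    set φ : ℂ → E n := fun s => g (c + ((ϱ : ℂ) * s) • e) with hφ
    have hmem : ∀ s ∈ ball (0 : ℂ) 1, c + ((ϱ : ℂ) * s) • e ∈ ball (0 : E n) ρ₀ := by
      intro s hs
      rw [mem_ball_zero_iff] at hs ⊢
      have h1 := hnorm ((ϱ : ℂ) * s)
      rw [norm_mul, Complex.norm_real, Real.norm_of_nonneg hϱp.le, mul_pow, hϱsq] at h1
      have h2 : ‖s‖ ^ 2 < 1 := by
        have := norm_nonneg s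
        nlinarith
      have h3 : ‖c + ((ϱ : ℂ) * s) • e‖ ^ 2 < ρ₀ ^ 2 := by rw [h1]; nlinarith
      exact lt_of_pow_lt_pow_left₀ 2 hρ.le h3
    have hφd : DifferentiableOn ℂ φ (ball 0 1) := by
      refine hg.comp (t := ball (0 : E n) ρ₀) ?_ hmem
      exact (((differentiable_const _).mul differentiable_id).smul_const e
        |>.const_add c).differentiableOn
    have hφm : MapsTo φ (ball 0 1) U := fun s hs => hmg (hmem s hs)
    have hαn : ‖α₀ / ϱ‖ ^ 2 = ‖α₀‖ ^ 2 / ϱ ^ 2 := by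
      rw [norm_div, Complex.norm_real, Real.norm_of_nonneg hϱp.le, div_pow]
    have hβn : ‖β₀ / ϱ‖ ^ 2 = ‖β₀‖ ^ 2 / ϱ ^ 2 := by
      rw [norm_div, Complex.norm_real, Real.norm_of_nonneg hϱp.le, div_pow]
    have hα1 : ‖α₀ / ϱ‖ < 1 := by
      have h1 : ‖α₀ / ϱ‖ ^ 2 < 1 ^ 2 := by
        rw [hαn, one_pow, div_lt_one (by positivity), hϱsq]; linarith
      exact lt_of_pow_lt_pow_left₀ 2 zero_le_one h1
    have hβ1 : ‖β₀ / ϱ‖ < 1 := by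
      have h1 : ‖β₀ / ϱ‖ ^ 2 < 1 ^ 2 := by
        rw [hβn, one_pow, div_lt_one (by positivity), hϱsq]; linarith
      exact lt_of_pow_lt_pow_left₀ 2 zero_le_one h1
    have e1 : 1 - ‖α₀ / ϱ‖ ^ 2 = (ρ₀ ^ 2 - ‖a‖ ^ 2) / ϱ ^ 2 := by
      rw [hαn, ha2]
      field_simp
      rw [hϱsq]; ring
    have e2 : 1 - ‖β₀ / ϱ‖ ^ 2 = (ρ₀ ^ 2 - ‖b‖ ^ 2) / ϱ ^ 2 := by
      rw [hβn, hb2]
      field_simp
      rw [hϱsq]; ring
    have e3 : ‖1 - conj (α₀ / ϱ) * (β₀ / ϱ)‖ = ρ₀ ^ 2 * ‖1 - (inner ℂ b a : ℂ) / ρ₀ ^ 2‖ / ϱ ^ 2 := by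
      have h1 : (1 : ℂ) - conj (α₀ / ϱ) * (β₀ / ϱ)
          = conj ((ρ₀ : ℂ) ^ 2 * (1 - (inner ℂ b a : ℂ) / ρ₀ ^ 2)) / (ϱ : ℂ) ^ 2 := by
        have hρc : (ρ₀ : ℂ) ≠ 0 := by exact_mod_cast hρ.ne'
        have h2 : (ρ₀ : ℂ) ^ 2 * (1 - (inner ℂ b a : ℂ) / ρ₀ ^ 2) = ρ₀ ^ 2 - inner ℂ b a := by
          field_simp
        have h3 : (ϱ : ℂ) ^ 2 = ρ₀ ^ 2 - (‖c‖ : ℂ) ^ 2 := by exact_mod_cast hϱsq
        rw [h2, hinner]
        simp only [map_sub, map_div₀, Complex.conj_ofReal, map_pow, map_add, map_mul,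
          Complex.conj_conj, Complex.ofReal_pow]
        field_simp
        rw [h3]; ring
      rw [h1, norm_div, RCLike.norm_conj, norm_mul, norm_pow, norm_pow, Complex.norm_real,
        Complex.norm_real, Real.norm_of_nonneg hρ.le, Real.norm_of_nonneg hϱp.le]
    have hkey := h n U lam M φ (α₀ / ϱ) (β₀ / ϱ) hlam hφd hφm hα1 hβ1 (by
      refine le_trans (le_of_eq ?_) hY
      rw [e1, e2, e3]
      have ha3 : ρ₀ ^ 2 - ‖a‖ ^ 2 ≠ 0 := by linarith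
      have hb3 : ρ₀ ^ 2 - ‖b‖ ^ 2 ≠ 0 := by linarith
      field_simp)
    have hφa : φ (α₀ / ϱ) = g a := by
      rw [hφ]
      simp only
      rw [mul_div_cancel₀ _ hϱc, ← haeq]
    have hφb : φ (β₀ / ϱ) = g b := by
      rw [hφ]
      simp only
      rw [mul_div_cancel₀ _ hϱc, ← hbeq]
    rw [hφa, hφb] at hkey
    exact hkey

/-- the numerical choice of the radius -/
theorem hops_radius (e₁ lam : ℝ) (k : ℕ) (hlam : 1 < lam) (hlam0 : lam ≤ Real.exp (e₁ / 4))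
    (he₁ : 0 < e₁) (hk : (1 + 1 / lam ^ k) ^ 2 < Real.exp (e₁ / 4)) :
    ∃ r₁ : ℝ, r₁ < 1 ∧ ∀ r : ℝ, r₁ ≤ r → r < 1 →
      (lam ^ k - 1) / (lam ^ k + 1) < r ∧ (lam ^ k - 1) / (lam ^ k + 1) ≤ r ^ 2 ∧ 1 / 2 < r ∧
      lam * (4 / lam ^ k / (1 - ((lam ^ k - 1) / (lam ^ k + 1)) ^ 2 / r ^ 2)) *
        ((3 / 4) / (1 - 1 / (4 * r ^ 2))) < Real.exp e₁ := by
  set L : ℝ := lam ^ k with hL
  have hLp : 0 < L := by positivity
  set T : ℝ := (L - 1) / (L + 1) with hT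
  have hT1 : T < 1 := by
    rw [hT, div_lt_one (by positivity)]; linarith
  have hT2 : 1 - T ^ 2 = 4 * L / (L + 1) ^ 2 := by
    rw [hT]; field_simp; ring
  have hT3 : 0 < 1 - T ^ 2 := by rw [hT2]; positivity
  have c1 : ∀ᶠ r in 𝓝 (1 : ℝ), T < r := lt_mem_nhds hT1
  have c2 : ∀ᶠ r in 𝓝 (1 : ℝ), T < r ^ 2 := by
    have hc : ContinuousAt (fun r : ℝ => r ^ 2) 1 := by fun_prop
    exact hc.eventually (lt_mem_nhds (by simpa using hT1))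
  have c3 : ∀ᶠ r in 𝓝 (1 : ℝ), 1 / 2 < r := lt_mem_nhds (by norm_num)
  have c4 : ∀ᶠ r in 𝓝 (1 : ℝ), lam * (4 / L / (1 - T ^ 2 / r ^ 2)) *
        ((3 / 4) / (1 - 1 / (4 * r ^ 2))) < Real.exp e₁ := by
    have hc : ContinuousAt (fun r : ℝ => lam * (4 / L / (1 - T ^ 2 / r ^ 2)) *
        ((3 / 4) / (1 - 1 / (4 * r ^ 2)))) 1 := by
      have hr : ContinuousAt (fun r : ℝ => r ^ 2) 1 := by fun_prop
      have hr4 : ContinuousAt (fun r : ℝ => 4 * r ^ 2) 1 := by fun_prop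
      refine ContinuousAt.mul (ContinuousAt.mul continuousAt_const ?_) ?_
      · refine ContinuousAt.div continuousAt_const (continuousAt_const.sub
          (ContinuousAt.div continuousAt_const hr (by norm_num))) ?_
        rw [one_pow, div_one]; exact hT3.ne'
      · refine ContinuousAt.div continuousAt_const (continuousAt_const.sub
          (ContinuousAt.div continuousAt_const hr4 (by norm_num))) ?_
        norm_num
    refine hc.eventually (gt_mem_nhds ?_)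
    have hval : lam * (4 / L / (1 - T ^ 2 / 1 ^ 2)) * ((3 / 4) / (1 - 1 / (4 * 1 ^ 2)))
        = lam * (1 + 1 / L) ^ 2 := by
      rw [one_pow, div_one, hT2]
      field_simp
      ring
    change lam * (4 / L / (1 - T ^ 2 / 1 ^ 2)) * ((3 / 4) / (1 - 1 / (4 * 1 ^ 2))) < Real.exp e₁
    rw [hval]
    have hexp : Real.exp e₁ = Real.exp (e₁ / 4) * Real.exp (e₁ / 4) * Real.exp (e₁ / 2) := by
      rw [← Real.exp_add, ← Real.exp_add]; congr 1; ring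
    have h5 : 1 ≤ Real.exp (e₁ / 2) := Real.one_le_exp (by positivity)
    have h6 : 0 < Real.exp (e₁ / 4) := Real.exp_pos _
    calc lam * (1 + 1 / L) ^ 2 < lam * Real.exp (e₁ / 4) :=
          mul_lt_mul_of_pos_left hk (by linarith)
      _ ≤ Real.exp (e₁ / 4) * Real.exp (e₁ / 4) := mul_le_mul_of_nonneg_right hlam0 h6.le
      _ = Real.exp (e₁ / 4) * Real.exp (e₁ / 4) * 1 := by ring
      _ ≤ Real.exp (e₁ / 4) * Real.exp (e₁ / 4) * Real.exp (e₁ / 2) :=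
          mul_le_mul_of_nonneg_left h5 (by positivity)
      _ = Real.exp e₁ := hexp.symm
  have c := c1.and (c2.and (c3.and c4))
  rw [Metric.eventually_nhds_iff] at c
  obtain ⟨ε, hε, hc⟩ := c
  refine ⟨1 - ε / 2, by linarith, ?_⟩
  intro r hr1 hr2
  have hdist : dist r 1 < ε := by
    rw [Real.dist_eq, abs_sub_comm, abs_of_pos (by linarith)]; linarith
  obtain ⟨d1, d2, d3, d4⟩ := hc hdist
  exact ⟨d1, d2.le, d3, d4⟩

/-- (J5b) -/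
theorem hopsIneq (h1 : BallChain) (h2 : HarnackChain) (h3 : ChainCalc) : HopsIneq := by
  intro e₁ he₁
  refine ⟨Real.exp (e₁ / 4), Real.one_lt_exp_iff.mpr (by positivity), ?_⟩
  intro lam hlam hlam0
  have hlam_pos : 0 < lam := by linarith
  have hk₀ : ∀ᶠ k : ℕ in atTop, (1 + 1 / lam ^ k) ^ 2 < Real.exp (e₁ / 4) := by
    have t1 : Tendsto (fun k : ℕ => lam ^ k) atTop atTop := tendsto_pow_atTop_atTop_of_one_lt hlam
    have t2 : Tendsto (fun k : ℕ => 1 / lam ^ k) atTop (𝓝 0) := by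
      simp only [one_div]; exact t1.inv_tendsto_atTop
    have t3 : Tendsto (fun k : ℕ => (1 + 1 / lam ^ k) ^ 2) atTop (𝓝 ((1 + 0) ^ 2)) :=
      (t2.const_add 1).pow 2
    refine t3.eventually (gt_mem_nhds ?_)
    rw [add_zero, one_pow]
    exact Real.one_lt_exp_iff.mpr (by positivity)
  obtain ⟨k₀, hk₀'⟩ := eventually_atTop.mp hk₀
  refine ⟨k₀, fun k hk => ?_⟩
  obtain ⟨r₁, hr₁, hr₁'⟩ := hops_radius e₁ lam k hlam hlam0 he₁ (hk₀' k hk)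
  refine ⟨r₁, hr₁, ?_⟩
  intro ρ₀ hρ1 hρ2 n Ω U A z f g hUΩ hAU hzU hch hex hkh
  obtain ⟨d1, d2, d3, d4⟩ := hr₁' ρ₀ hρ1 hρ2
  obtain ⟨ccsymm, cctrans, ccsplit, ccmono, ccmem⟩ := h3 n U lam hlam
  set L : ℝ := lam ^ k with hL
  have hLp : 0 < L := by positivity
  set T : ℝ := (L - 1) / (L + 1) with hT
  set m : ℕ := hops U A lam z with hm
  obtain ⟨y, hyA, hy⟩ : ∃ y ∈ A, Chain U lam m z y := Nat.sInf_mem
    (s := {m | ∃ y ∈ A, Chain U lam m z y}) hex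
  have hmk : k + (m - k) = m := Nat.add_sub_of_le hkh
  rw [← hmk] at hy
  obtain ⟨zk, hzk1, hzk2⟩ := ccsplit k (m - k) z y hy
  have hzkU : zk ∈ U := ccmem k z zk hzU hzk1
  set b₀ : E n := f zk with hb₀
  have hH : 1 + ‖b₀‖ ≤ L * (1 - ‖b₀‖) :=
    h2 n Ω U lam k f z zk hlam hUΩ hch.df hch.mf hch.fz hzk1
  have hρ0 : 0 < ρ₀ := by linarith
  have hρsq : 0 < ρ₀ ^ 2 := by positivity
  have hρ4 : 1 / 4 < ρ₀ ^ 2 := by
    have h := pow_lt_pow_left₀ d3 (by norm_num) two_ne_zero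
    norm_num at h
    linarith
  have hρlt1 : ρ₀ ^ 2 < 1 := by
    have h := pow_lt_pow_left₀ hρ2 hρ0.le two_ne_zero
    linarith
  have hb₀T : ‖b₀‖ ≤ T := by
    rw [hT, le_div_iff₀ (by positivity)]; linarith
  have hb₀n : 0 ≤ ‖b₀‖ := norm_nonneg _
  have hT0 : 0 ≤ T := hb₀n.trans hb₀T
  have hb₀ρ : ‖b₀‖ < ρ₀ := lt_of_le_of_lt hb₀T d1
  have hgb : g b₀ = zk := hch.gf zk (hUΩ hzkU) (by rw [mem_ball_zero_iff]; exact hb₀ρ)
  have hρc : (ρ₀ : ℂ) ≠ 0 := by exact_mod_cast hρ0.ne'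
  refine ⟨(((ρ₀ ^ 2)⁻¹ : ℝ) : ℂ) • b₀, ?_, ?_⟩
  · rw [norm_smul, Complex.norm_real, Real.norm_of_nonneg (by positivity), inv_mul_le_iff₀ hρsq,
      mul_one]
    exact hb₀T.trans d2
  intro a ha
  have han : 0 ≤ ‖a‖ := norm_nonneg _
  have haρ : ‖a‖ < ρ₀ := by linarith
  have hinner : (1 : ℂ) - inner ℂ ((((ρ₀ ^ 2)⁻¹ : ℝ) : ℂ) • b₀) a
      = 1 - (inner ℂ b₀ a : ℂ) / ρ₀ ^ 2 := by
    rw [inner_smul_left, Complex.conj_ofReal, Complex.ofReal_inv, Complex.ofReal_pow]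
    ring
  rw [hinner]
  set N : ℝ := ‖1 - (inner ℂ b₀ a : ℂ) / ρ₀ ^ 2‖ with hN
  have hN0 : 0 ≤ N := norm_nonneg _
  set P : ℝ := 1 - ‖a‖ ^ 2 / ρ₀ ^ 2 with hP
  set Q : ℝ := 1 - ‖b₀‖ ^ 2 / ρ₀ ^ 2 with hQ
  have ha4 : ‖a‖ ^ 2 ≤ 1 / 4 := by nlinarith
  have hP0 : 0 < P := by
    rw [hP, sub_pos, div_lt_one hρsq]; linarith
  have hQ0 : 0 < Q := by
    rw [hQ, sub_pos, div_lt_one hρsq]; exact pow_lt_pow_left₀ hb₀ρ hb₀n two_ne_zero
  -- lower bound of `N`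
  have hN1 : P * Q ≤ N ^ 2 := by
    have hx : ‖(inner ℂ b₀ a : ℂ) / ρ₀ ^ 2‖ ≤ (‖b₀‖ / ρ₀) * (‖a‖ / ρ₀) := by
      rw [norm_div, norm_pow, Complex.norm_real, Real.norm_of_nonneg hρ0.le]
      have := norm_inner_le_norm (𝕜 := ℂ) b₀ a
      rw [div_mul_div_comm, ← pow_two]
      exact div_le_div_of_nonneg_right this hρsq.le
    have hy1 : ‖b₀‖ / ρ₀ < 1 := (div_lt_one hρ0).mpr hb₀ρ
    have hy2 : ‖a‖ / ρ₀ < 1 := (div_lt_one hρ0).mpr haρ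
    have hy3 : 0 ≤ ‖b₀‖ / ρ₀ := by positivity
    have hy4 : 0 ≤ ‖a‖ / ρ₀ := by positivity
    have hz : 1 - (‖b₀‖ / ρ₀) * (‖a‖ / ρ₀) ≤ N := by
      have := norm_sub_norm_le (1 : ℂ) ((inner ℂ b₀ a : ℂ) / ρ₀ ^ 2)
      rw [norm_one] at this
      linarith
    have hz0 : 0 ≤ 1 - (‖b₀‖ / ρ₀) * (‖a‖ / ρ₀) := by nlinarith
    have hz2 : (1 - (‖b₀‖ / ρ₀) * (‖a‖ / ρ₀)) ^ 2 ≤ N ^ 2 := pow_le_pow_left₀ hz0 hz 2
    refine le_trans ?_ hz2
    rw [hP, hQ, ← div_pow, ← div_pow]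
    nlinarith [sq_nonneg (‖b₀‖ / ρ₀ - ‖a‖ / ρ₀)]
  set Y : ℝ := 4 * N ^ 2 / (P * Q) with hY
  have hY1 : 1 ≤ Y := by
    rw [hY, le_div_iff₀ (by positivity)]
    have : 0 < P * Q := by positivity
    linarith
  obtain ⟨M, hM1, hM2⟩ : ∃ M : ℕ, Y ≤ lam ^ M ∧ lam ^ M ≤ lam * Y := by
    have hexM : ∃ M : ℕ, Y ≤ lam ^ M := by
      obtain ⟨M, hM⟩ := pow_unbounded_of_one_lt Y hlam
      exact ⟨M, hM.le⟩
    classical
    refine ⟨Nat.find hexM, Nat.find_spec hexM, ?_⟩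
    rcases Nat.eq_zero_or_pos (Nat.find hexM) with h0 | h0
    · rw [h0, pow_zero]; nlinarith
    · have hlt := Nat.find_min hexM (Nat.sub_lt h0 Nat.one_pos)
      rw [not_le] at hlt
      have : lam ^ Nat.find hexM = lam * lam ^ (Nat.find hexM - 1) := by
        rw [← pow_succ', Nat.sub_add_cancel h0]
      rw [this]
      exact mul_le_mul_of_nonneg_left hlt.le hlam_pos.le
  have hchain1 : Chain U lam M (g a) (g b₀) :=
    h1 n U lam ρ₀ M g a b₀ hlam hρ0 hch.dg hch.mg haρ hb₀ρ hM1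
  rw [hgb] at hchain1
  have hchain2 : Chain U lam (M + (m - k)) (g a) y := cctrans M (m - k) (g a) zk y hchain1 hzk2
  have hhops : hops U A lam (g a) ≤ M + (m - k) := Nat.sInf_le ⟨y, hyA, hchain2⟩
  have hpow : lam ^ (m - k) = lam ^ m / L := by
    rw [hL, eq_div_iff hLp.ne', ← pow_add, Nat.sub_add_cancel hkh]
  have ha1 : 0 < 1 - ‖a‖ ^ 2 := by linarith
  have hlm : 0 < lam ^ m := by positivity
  -- the two comparisons
  have hQ1 : 1 - T ^ 2 / ρ₀ ^ 2 ≤ Q := by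
    rw [hQ]
    have : ‖b₀‖ ^ 2 ≤ T ^ 2 := pow_le_pow_left₀ hb₀n hb₀T 2
    have := div_le_div_of_nonneg_right this hρsq.le
    linarith
  have hT1 : 0 < 1 - T ^ 2 / ρ₀ ^ 2 := by
    rw [sub_pos, div_lt_one hρsq]; exact pow_lt_pow_left₀ d1 hT0 two_ne_zero
  have hR0 : 0 < 1 - 1 / (4 * ρ₀ ^ 2) := by
    rw [sub_pos, div_lt_one (by positivity)]; linarith
  have hP1 : (1 - ‖a‖ ^ 2) / P ≤ (3 / 4) / (1 - 1 / (4 * ρ₀ ^ 2)) := by
    rw [div_le_div_iff₀ hP0 hR0, hP]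
    have e1 : 3 / 4 * (1 - ‖a‖ ^ 2 / ρ₀ ^ 2) - (1 - ‖a‖ ^ 2) * (1 - 1 / (4 * ρ₀ ^ 2))
        = (1 / 4 - ‖a‖ ^ 2) * ((1 - ρ₀ ^ 2) / ρ₀ ^ 2) := by
      field_simp
      ring
    have e2 : 0 ≤ (1 / 4 - ‖a‖ ^ 2) * ((1 - ρ₀ ^ 2) / ρ₀ ^ 2) := by
      apply mul_nonneg (by linarith)
      apply div_nonneg _ hρsq.le
      linarith
    linarith
  have hfin : lam * (4 / L / Q) * ((1 - ‖a‖ ^ 2) / P) ≤ Real.exp e₁ := by
    refine le_trans ?_ d4.le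
    have f1 : 4 / L / Q ≤ 4 / L / (1 - T ^ 2 / ρ₀ ^ 2) :=
      div_le_div_of_nonneg_left (by positivity) hT1 hQ1
    exact mul_le_mul (mul_le_mul_of_nonneg_left f1 hlam_pos.le) hP1
      (by positivity) (by positivity)
  calc lam ^ hops U A lam (g a) ≤ lam ^ (M + (m - k)) := pow_le_pow_right₀ hlam.le hhops
    _ = lam ^ M * (lam ^ m / L) := by rw [pow_add, hpow]
    _ ≤ lam * Y * (lam ^ m / L) := mul_le_mul_of_nonneg_right hM2 (by positivity)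
    _ = (lam * (4 / L / Q) * ((1 - ‖a‖ ^ 2) / P)) * (lam ^ m * (N ^ 2 / (1 - ‖a‖ ^ 2))) := by
        rw [hY]; field_simp
    _ ≤ Real.exp e₁ * (lam ^ m * (N ^ 2 / (1 - ‖a‖ ^ 2))) :=
        mul_le_mul_of_nonneg_right hfin (by positivity)
    _ = Real.exp e₁ * lam ^ m * (N ^ 2 / (1 - ‖a‖ ^ 2)) := by ring

end SqzC4
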