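import Pool.Agent.SqzC4.Spec

/-!
# Lower bound for the number of steps (J6)
-/

set_option autoImplicit false

open Metric Set
open scoped ComplexConjugate

namespace SqzC4

namespace LB

/-- On all discs through `x` the function `u` is at least `μ` on half of the disc. -/
def Q {n : ℕ} (U : Set (E n)) (u : E n → ℝ) (x : E n) (μ : ℝ) : Prop :=
  ∀ φ : ℂ → E n, DifferentiableOn ℂ φ (ball 0 1) → MapsTo φ (ball 0 1) U → φ 0 = x →
    ∀ s : ℂ, ‖s‖ ≤ 1 / 2 → μ ≤ u (φ s)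

theorem Q.self {n : ℕ} {U : Set (E n)} {u : E n → ℝ} {x : E n} {μ : ℝ} (h : Q U u x μ)
    (hx : x ∈ U) : μ ≤ u x :=
  h (fun _ => x) (differentiableOn_const x) (fun _ _ => hx) rfl 0 (by simp)

/-- The transport step (T). -/
theorem transport (hH : HarnackHalf) {n : ℕ} {Ω : Set (E n)} {ρ : E n → ℝ} {p : E n}
    {η L σ : ℝ} (hopf : HopfAt Ω ρ p L η σ) {K ρ₀ : ℝ} (hK : 1 < K) (hρ : ρ₀ < 1)
    (hKρ : (3 * K - 1) / (3 * K + 1) ≤ 2 * ρ₀ - 1) {y : E n} {f g : E n → E n}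
    (hc : IsChart Ω (Ω ∩ ball p σ) ρ₀ y f g) (hy : y ∈ Ω ∩ ball p σ) {μ : ℝ} (hμ : 0 ≤ μ)
    (hQ : Q (Ω ∩ ball p σ) (uDF ρ p L η) y μ) {x : E n}
    (hx : 1 + ‖f x‖ ≤ K * (1 - ‖f x‖)) :
    Q (Ω ∩ ball p σ) (uDF ρ p L η) x (μ / (4 * K)) := by
  intro φ hφ hφU hφ0 s hs
  have hK0 : 0 < K := by linarith
  have hs1 : ‖s‖ < 1 := by linarith
  set a := f (φ s) with ha
  have h1 : 1 + ‖a‖ ≤ 3 * K * (1 - ‖a‖) :=
    hH n Ω K f φ s hc.df hc.mf hφ (fun t ht => (hφU ht).1) (by rw [hφ0]; exact hx) hs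
  set r2 := (3 * K - 1) / (3 * K + 1) with hr2
  have hr2' : 1 - r2 = 2 / (3 * K + 1) := by
    rw [hr2]; field_simp; ring
  have hr2pos : 0 < r2 := by
    rw [hr2]; apply div_pos <;> linarith
  have h2 : ‖a‖ ≤ r2 := by
    rw [hr2, le_div_iff₀ (by linarith)]
    linarith
  have hr2lt : r2 < 1 := by
    have : 0 < 2 / (3 * K + 1) := by positivity
    linarith
  have h3 : r2 < ρ₀ := by linarith
  have hρ0 : 0 < ρ₀ := by linarith
  have hx' : φ s ∈ Ω ∩ ball p σ := hφU (by simpa using hs1)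
  have hga : g a = φ s := hc.gf _ hx'.1 (by simpa using h2.trans_lt h3)
  have hg0 : g 0 = y := by
    have := hc.gf y hy.1 (by rw [hc.fz]; simpa using hρ0)
    rwa [hc.fz] at this
  have hμ' : μ / (4 * K) ≤ μ := div_le_self hμ (by linarith)
  rcases eq_or_ne a 0 with h0 | h0
  · rw [← hga, h0, hg0]
    exact hμ'.trans (hQ.self hy)
  have ha0 : 0 < ‖a‖ := norm_pos_iff.2 h0
  set e : E n := ((ρ₀ / ‖a‖ : ℝ) : ℂ) • a with he
  have hen : ‖e‖ = ρ₀ := by
    rw [he, norm_smul, Complex.norm_real, Real.norm_of_nonneg (by positivity)]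
    field_simp
  have hball : ∀ t ∈ ball (0 : ℂ) 1, t • e ∈ ball (0 : E n) ρ₀ := by
    intro t ht
    simp only [mem_ball_zero_iff] at ht ⊢
    rw [norm_smul, hen]
    nlinarith
  set ψ : ℂ → E n := fun t => g (t • e) with hψ
  have hψd : DifferentiableOn ℂ ψ (ball 0 1) :=
    hc.dg.comp (by fun_prop) hball
  have hψm : MapsTo ψ (ball 0 1) (Ω ∩ ball p σ) := fun t ht => hc.mg (hball t ht)
  have hψ0 : ψ 0 = y := by simp only [hψ, zero_smul, hg0]
  set t₀ : ℂ := ((‖a‖ / ρ₀ : ℝ) : ℂ) with ht₀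
  have ht₀n : ‖t₀‖ = ‖a‖ / ρ₀ := by
    rw [ht₀, Complex.norm_real, Real.norm_of_nonneg (by positivity)]
  have hψt : ψ t₀ = φ s := by
    have : t₀ • e = a := by
      rw [ht₀, he, smul_smul, ← Complex.ofReal_mul]
      have : ‖a‖ / ρ₀ * (ρ₀ / ‖a‖) = 1 := by field_simp
      rw [this, Complex.ofReal_one, one_smul]
    simp only [hψ, this, hga]
  rcases le_total (‖a‖ / ρ₀) (1 / 2) with h4 | h4
  · have := hQ ψ hψd hψm hψ0 t₀ (by rw [ht₀n]; exact h4)
    rw [hψt] at this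
    exact hμ'.trans this
  · have h5 : ‖a‖ / ρ₀ < 1 := by
      rw [div_lt_one hρ0]; linarith
    have h6 := hopf 0 (1 / 2) 1 μ ψ (by norm_num) (by norm_num) hμ hψd hψm
      (fun t ht => hQ ψ hψd hψm hψ0 t (by simpa using ht.le)) t₀
      (by rw [sub_zero, ht₀n]; exact h4) (by rw [sub_zero, ht₀n]; exact h5)
    rw [hψt, sub_zero, ht₀n] at h6
    refine le_trans ?_ h6
    have h7 : 1 / (4 * K) ≤ Real.log (1 / (‖a‖ / ρ₀)) := by
      have h8 : 1 / (‖a‖ / ρ₀) = ρ₀ / ‖a‖ := by field_simp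
      have h9 : 1 - (ρ₀ / ‖a‖)⁻¹ ≤ Real.log (ρ₀ / ‖a‖) :=
        Real.one_sub_inv_le_log_of_pos (by positivity)
      rw [h8]
      refine le_trans ?_ h9
      have h10 : (ρ₀ / ‖a‖)⁻¹ = ‖a‖ / ρ₀ := by field_simp
      rw [h10]
      have h11 : 1 - ‖a‖ / ρ₀ = (ρ₀ - ‖a‖) / ρ₀ := by field_simp
      rw [h11]
      have h12 : 1 / (4 * K) ≤ ρ₀ - ‖a‖ := by
        have h13 : 1 / (4 * K) ≤ 1 / (3 * K + 1) :=
          one_div_le_one_div_of_le (by linarith) (by linarith)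
        have h14 : 1 / (3 * K + 1) = (1 - r2) / 2 := by rw [hr2']; ring
        linarith
      rw [le_div_iff₀ hρ0]
      have h15 : 0 ≤ 1 / (4 * K) := by positivity
      nlinarith
    have h16 : 0 < Real.log (1 / (1 / 2)) := Real.log_pos (by norm_num)
    have h17 : Real.log (1 / (1 / 2)) ≤ 1 := by
      have := Real.log_le_sub_one_of_pos (by norm_num : (0 : ℝ) < 1 / (1 / 2))
      norm_num at this ⊢
      exact this
    have h18 : 1 / (4 * K) ≤ Real.log (1 / (‖a‖ / ρ₀)) / Real.log (1 / (1 / 2)) := by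
      rw [le_div_iff₀ h16]
      have h15 : 0 ≤ 1 / (4 * K) := by positivity
      nlinarith
    calc μ / (4 * K) = μ * (1 / (4 * K)) := by ring
      _ ≤ _ := mul_le_mul_of_nonneg_left h18 hμ

/-- The base of the induction. -/
theorem base {n : ℕ} {Ω : Set (E n)} {ρ : E n → ℝ} {p : E n}
    {η L σ r₀ : ℝ} (hρ : Continuous ρ) (hη : 0 < η) (hL : 0 ≤ L) (hσ : 0 < σ)
    (hopf : HopfAt Ω ρ p L η σ) (hr₀ : 0 < r₀) :
    ∃ μ : ℝ, 0 < μ ∧ ∀ y ∈ Ω ∩ ball p σ, r₀ ≤ -ρ y →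
      Q (Ω ∩ ball p σ) (uDF ρ p L η) y μ := by
  have hK : IsCompact (closedBall p σ) := isCompact_closedBall p σ
  have huc := hK.uniformContinuousOn_of_continuous hρ.continuousOn
  rw [Metric.uniformContinuousOn_iff] at huc
  obtain ⟨δ, hδ, hδ'⟩ := huc (r₀ / 2) (by positivity)
  set c := min (1 / 4) (δ / (4 * σ)) with hc
  have hc0 : 0 < c := lt_min (by norm_num) (by positivity)
  have hc4 : c ≤ 1 / 4 := min_le_left _ _
  have hcδ : 2 * σ * c < δ := by
    have h1 : c ≤ δ / (4 * σ) := min_le_right _ _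
    have h2 : c * (4 * σ) ≤ δ := (le_div_iff₀ (by positivity)).1 h1
    nlinarith
  set μ₁ : ℝ := (r₀ / 2 * Real.exp (-L * σ ^ 2)) ^ η with hμ₁
  have hμ₁0 : 0 < μ₁ := Real.rpow_pos_of_pos (by positivity) η
  have hl2 : 0 < Real.log 2 := Real.log_pos (by norm_num)
  have hlc : Real.log 2 ≤ Real.log (1 / c) := by
    apply Real.log_le_log (by norm_num)
    rw [le_div_iff₀ hc0]
    linarith
  have hlc0 : 0 < Real.log (1 / c) := lt_of_lt_of_le hl2 hlc
  refine ⟨μ₁ * (Real.log 2 / Real.log (1 / c)), by positivity, fun y hy hry φ hφ hφU hφ0 s hs => ?_⟩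
  have hratio : Real.log 2 / Real.log (1 / c) ≤ 1 := (div_le_one hlc0).2 hlc
  have hsch : ∀ t : ℂ, ‖t‖ < 1 → dist (φ t) y ≤ 2 * σ * ‖t‖ := by
    intro t ht
    have h1 : MapsTo φ (ball 0 1) (closedBall (φ 0) (2 * σ)) := by
      intro z hz
      have h2 := (hφU hz).2
      have h3 := hy.2
      rw [hφ0, mem_closedBall]
      rw [mem_ball] at h2 h3
      have := dist_triangle_right (φ z) y p
      linarith
    have h4 := Complex.dist_le_div_mul_dist_of_mapsTo_ball hφ h1 (by simpa using ht)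
    rw [hφ0] at h4
    simpa using h4
  have hsmall : ∀ t : ℂ, ‖t‖ ≤ c → μ₁ ≤ uDF ρ p L η (φ t) := by
    intro t ht
    have ht1 : ‖t‖ < 1 := by linarith
    have h1 := hsch t ht1
    have h2 : dist (φ t) y < δ := by
      have : 2 * σ * ‖t‖ ≤ 2 * σ * c := by
        apply mul_le_mul_of_nonneg_left ht (by positivity)
      linarith
    have h3 := hφU (show t ∈ ball (0 : ℂ) 1 by simpa using ht1)
    have h4 := hδ' (φ t) (ball_subset_closedBall h3.2) y (ball_subset_closedBall hy.2) h2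
    rw [Real.dist_eq] at h4
    have h5 : r₀ / 2 ≤ -ρ (φ t) := by
      have := (abs_lt.1 h4).2
      linarith
    have h6 : ‖φ t - p‖ ≤ σ := by
      rw [← dist_eq_norm]
      exact (mem_ball.1 h3.2).le
    have h7 : Real.exp (-L * σ ^ 2) ≤ Real.exp (-L * ‖φ t - p‖ ^ 2) := by
      apply Real.exp_le_exp.2
      have h8 : ‖φ t - p‖ ^ 2 ≤ σ ^ 2 := by
        have := norm_nonneg (φ t - p)
        nlinarith
      nlinarith
    unfold uDF
    rw [hμ₁]
    apply Real.rpow_le_rpow (by positivity) _ hη.le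
    exact mul_le_mul h5 h7 (Real.exp_pos _).le (by linarith)
  rcases le_total ‖s‖ c with h | h
  · refine le_trans ?_ (hsmall s h)
    nlinarith
  · have h1 := hopf 0 c 1 μ₁ φ hc0 (by linarith) hμ₁0.le hφ hφU
      (fun t ht => hsmall t (by simpa using ht.le)) s (by simpa using h)
      (by rw [sub_zero]; linarith)
    rw [sub_zero] at h1
    refine le_trans ?_ h1
    apply mul_le_mul_of_nonneg_left _ hμ₁0.le
    apply div_le_div_of_nonneg_right _ hlc0.le
    apply Real.log_le_log (by norm_num)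
    have hs0 : 0 < ‖s‖ := lt_of_lt_of_le hc0 h
    rw [le_div_iff₀ hs0]
    linarith

end LB

open LB

theorem lowerBound (h1 : HarnackChain) (h2 : HarnackHalf) (h3 : ChainCalc) : LowerBound := by
  intro n Ω ρ hΩ p η L σ hη hη1 hL hσ hopf lam k ρ₀ σ' r₀ hlam hk hρ₀ hKρ hσ' hσσ hch hr₀
  set K := lam ^ k with hKdef
  have hK : 1 < K := one_lt_pow₀ hlam hk.ne'
  have hK0 : 0 < K := by linarith
  obtain ⟨μ₀, hμ₀, hbase⟩ := base hΩ.smooth.continuous hη hL hσ hopf hr₀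
  obtain ⟨csymm, ctrans, csplit, cext, cmem⟩ := h3 n (Ω ∩ ball p σ') lam hlam
  have hsub : Ω ∩ ball p σ' ⊆ Ω ∩ ball p σ :=
    inter_subset_inter_right _ (ball_subset_ball hσσ)
  have key : ∀ j m : ℕ, m ≤ j * k → ∀ x y : E n, x ∈ Ω ∩ ball p σ' → y ∈ Ω ∩ ball p σ' →
      r₀ ≤ -ρ y → Chain (Ω ∩ ball p σ') lam m x y →
      Q (Ω ∩ ball p σ) (uDF ρ p L η) x (μ₀ / (4 * K) ^ j) := by
    intro j
    induction j with
    | zero =>
      intro m hm x y hx hy hry hchain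
      have hm0 : m = 0 := by omega
      subst hm0
      have hxy : x = y := hchain
      rw [hxy, pow_zero, div_one]
      exact hbase y (hsub hy) hry
    | succ j ih =>
      intro m hm x y hx hy hry hchain
      have hc1 : Chain (Ω ∩ ball p σ') lam (k + j * k) x y :=
        cext m (k + j * k) x y hx hchain (by rw [Nat.succ_mul] at hm; omega)
      obtain ⟨y', hxy', hy'y⟩ := csplit k (j * k) x y hc1
      have hy' : y' ∈ Ω ∩ ball p σ' := cmem k x y' hx hxy'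
      have hQ := ih (j * k) le_rfl y' y hy' hy hry hy'y
      obtain ⟨f, g, hfg⟩ := hch y' hy'
      have hx1 : 1 + ‖f x‖ ≤ K * (1 - ‖f x‖) :=
        h1 n Ω (Ω ∩ ball p σ') lam k f y' x hlam inter_subset_left hfg.df hfg.mf hfg.fz
          (csymm k x y' hxy')
      have h5 := transport h2 hopf hK hρ₀ hKρ hfg (hsub hy')
        (by positivity : 0 ≤ μ₀ / (4 * K) ^ j) hQ hx1
      have h6 : μ₀ / (4 * K) ^ (j + 1) = μ₀ / (4 * K) ^ j / (4 * K) := by
        rw [pow_succ]; field_simp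
      rw [h6]
      exact h5
  refine ⟨4 * K / μ₀, by positivity, fun m x y hx hy hry hchain => ?_⟩
  set j := m / k + 1 with hj
  have hmj : m ≤ j * k := by
    have h7 := Nat.div_add_mod m k
    have h8 := Nat.mod_lt m hk
    rw [hj, Nat.succ_mul, Nat.mul_comm]
    omega
  have h4 := (key j m hmj x y hx hy hry hchain).self (hsub hx)
  have hρx : 0 < -ρ x := by
    have := hx.1
    rw [hΩ.eq] at this
    simp only [mem_ofPred_eq] at this
    linarith
  have h5 : uDF ρ p L η x ≤ (-ρ x) ^ η := by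
    unfold uDF
    apply Real.rpow_le_rpow (by positivity) _ hη.le
    have : Real.exp (-L * ‖x - p‖ ^ 2) ≤ 1 := by
      apply Real.exp_le_one_iff.2
      have : 0 ≤ L * ‖x - p‖ ^ 2 := by positivity
      linarith
    nlinarith
  have h6 : ((4 * K) ^ j : ℝ) ≤ (4 * K) * (4 * K) ^ ((m : ℝ) / k) := by
    have h7 : ((4 * K) ^ j : ℝ) = (4 * K) ^ ((m / k : ℕ) : ℝ) * (4 * K) := by
      rw [hj, pow_succ, Real.rpow_natCast]
    have h8 : ((m / k : ℕ) : ℝ) ≤ (m : ℝ) / k := Nat.cast_div_le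
    have h9 : (4 * K) ^ ((m / k : ℕ) : ℝ) ≤ (4 * K) ^ ((m : ℝ) / k) :=
      Real.rpow_le_rpow_of_exponent_le (by linarith) h8
    rw [h7, mul_comm (4 * K)]
    exact mul_le_mul_of_nonneg_right h9 (by positivity)
  have h7 : μ₀ ≤ (4 * K) ^ j * (-ρ x) ^ η := by
    have h8 : 0 < (4 * K) ^ j := by positivity
    have h9 := (div_le_iff₀ h8).1 (h4.trans h5)
    linarith
  have h8 : 0 ≤ (-ρ x) ^ η := Real.rpow_nonneg hρx.le η
  have h9 : μ₀ ≤ (4 * K) * (4 * K) ^ ((m : ℝ) / k) * (-ρ x) ^ η :=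
    h7.trans (mul_le_mul_of_nonneg_right h6 h8)
  have h10 : 4 * K / μ₀ * (4 * K) ^ ((m : ℝ) / k) * (-ρ x) ^ η =
      ((4 * K) * (4 * K) ^ ((m : ℝ) / k) * (-ρ x) ^ η) / μ₀ := by ring
  rw [h10, le_div_iff₀ hμ₀]
  linarith

end SqzC4
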