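import Pool.Agent.SqzC4.Spec

/-!
# The normal slice through a boundary point (jobs J8a, J8b)

`SliceGeom`: first order behaviour of `ρ` on the normal slice.
`SliceV`: upper bounds for `VV` on the normal slice through a degenerate point.
-/

set_option autoImplicit false

open Metric Set Filter Topology

namespace SqzC4

namespace Slice

section Taylor

variable {X W : Type*} [NormedAddCommGroup X] [NormedSpace ℝ X] [FiniteDimensional ℝ X]
  [NormedAddCommGroup W] [NormedSpace ℝ W]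

lemma exists_lip {F : X → W} (hF : ContDiff ℝ 1 F) (p : X) : ∃ K : ℝ, 1 ≤ K ∧
    ∀ x ∈ closedBall p 1, ∀ y ∈ closedBall p 1, ‖F y - F x‖ ≤ K * ‖y - x‖ := by
  obtain ⟨K, hK⟩ := (isCompact_closedBall p 1).exists_bound_of_continuousOn
    (hF.continuous_fderiv (by norm_num)).continuousOn
  refine ⟨max K 1, le_max_right _ _, fun x hx y hy => ?_⟩
  exact (convex_closedBall p 1).norm_image_sub_le_of_norm_fderiv_le (𝕜 := ℝ)
    (fun z _ => hF.differentiable (by norm_num) z)
    (fun z hz => (hK z hz).trans (le_max_left _ _)) hx hy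

lemma exists_taylor1 {F : X → W} (hF : ContDiff ℝ 2 F) (p : X) : ∃ K : ℝ, 1 ≤ K ∧
    ∀ x ∈ closedBall p 1, ∀ y ∈ closedBall p 1,
      ‖F y - F x - fderiv ℝ F x (y - x)‖ ≤ K * ‖y - x‖ ^ 2 := by
  obtain ⟨K, hK1, hK⟩ := exists_lip (F := fderiv ℝ F) (hF.fderiv_right (by norm_num)) p
  refine ⟨K, hK1, fun x hx y hy => ?_⟩
  have hseg : segment ℝ x y ⊆ closedBall p 1 := (convex_closedBall p 1).segment_subset hx hy
  have h := (convex_segment x y).norm_image_sub_le_of_norm_fderiv_le' (𝕜 := ℝ) (f := F)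
    (C := K * ‖y - x‖) (φ := fderiv ℝ F x)
    (fun z _ => hF.differentiable (by norm_num) z) (fun z hz => ?_)
    (left_mem_segment ℝ x y) (right_mem_segment ℝ x y)
  · calc _ ≤ K * ‖y - x‖ * ‖y - x‖ := h
      _ = _ := by ring
  · refine (hK x hx z (hseg hz)).trans ?_
    have : ‖z - x‖ ≤ ‖y - x‖ := by
      rw [segment_eq_image' ℝ x y] at hz
      obtain ⟨t, ⟨ht0, ht1⟩, rfl⟩ := hz
      rw [add_sub_cancel_left, norm_smul, Real.norm_of_nonneg ht0]
      exact mul_le_of_le_one_left (norm_nonneg _) ht1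
    gcongr

lemma exists_taylor2 {F : X → W} (hF : ContDiff ℝ 3 F) (p : X) : ∃ K : ℝ, 1 ≤ K ∧
    ∀ x ∈ closedBall p 1, ∀ y ∈ closedBall p 1,
      ‖F y - F x - fderiv ℝ F x (y - x) - (1 / 2 : ℝ) • fderiv ℝ (fderiv ℝ F) x (y - x) (y - x)‖ ≤
        K * ‖y - x‖ ^ 3 := by
  obtain ⟨K, hK1, hK⟩ := exists_taylor1 (F := fderiv ℝ F) (hF.fderiv_right (by norm_num)) p
  refine ⟨K, hK1, fun x hx y hy => ?_⟩
  set h := y - x with hh
  set G : ℝ → W := fun t => F (x + t • h) - t • fderiv ℝ F x h -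
    (t ^ 2 / 2) • fderiv ℝ (fderiv ℝ F) x h h with hG
  set G' : ℝ → W := fun t => fderiv ℝ F (x + t • h) h - fderiv ℝ F x h -
    t • fderiv ℝ (fderiv ℝ F) x h h with hG'
  have hmem : ∀ t ∈ Icc (0 : ℝ) 1, x + t • h ∈ closedBall p 1 := by
    intro t ht
    have : x + t • h ∈ segment ℝ x y := by
      rw [segment_eq_image' ℝ x y]
      exact ⟨t, ht, rfl⟩
    exact (convex_closedBall p 1).segment_subset hx hy this
  have hd : ∀ t : ℝ, HasDerivAt G (G' t) t := by
    intro t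
    have h1 : HasDerivAt (fun t : ℝ => x + t • h) h t := by
      simpa using ((hasDerivAt_id t).smul_const h).const_add x
    have h2 : HasDerivAt (fun t : ℝ => F (x + t • h)) (fderiv ℝ F (x + t • h) h) t :=
      (hF.differentiable (by norm_num) _).hasFDerivAt.comp_hasDerivAt t h1
    have h3 : HasDerivAt (fun t : ℝ => t • fderiv ℝ F x h) (fderiv ℝ F x h) t := by
      simpa using (hasDerivAt_id t).smul_const (fderiv ℝ F x h)
    have h4 : HasDerivAt (fun t : ℝ => (t ^ 2 / 2) • fderiv ℝ (fderiv ℝ F) x h h)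
        (t • fderiv ℝ (fderiv ℝ F) x h h) t := by
      have : HasDerivAt (fun t : ℝ => t ^ 2 / 2) t t := by
        have := (hasDerivAt_pow 2 t).div_const 2
        simpa using this
      exact this.smul_const _
    exact (h2.sub h3).sub h4
  have hb := norm_image_sub_le_of_norm_deriv_le_segment_01' (f := G) (f' := G')
    (C := K * ‖h‖ ^ 3) (fun t _ => (hd t).hasDerivWithinAt) (fun t ht => ?_)
  · have e : G 1 - G 0 = F y - F x - fderiv ℝ F x h -
        (1 / 2 : ℝ) • fderiv ℝ (fderiv ℝ F) x h h := by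
      simp only [hG, hh]
      simp
      abel
    rw [e] at hb
    exact hb
  · have ht' : t ∈ Icc (0 : ℝ) 1 := ⟨ht.1, ht.2.le⟩
    have h1 := hK x hx (x + t • h) (hmem t ht')
    rw [add_sub_cancel_left, norm_smul, Real.norm_of_nonneg ht.1] at h1
    have e : G' t = (fderiv ℝ F (x + t • h) - fderiv ℝ F x -
        fderiv ℝ (fderiv ℝ F) x (t • h)) h := by
      simp [hG']
    rw [e]
    calc ‖(fderiv ℝ F (x + t • h) - fderiv ℝ F x - fderiv ℝ (fderiv ℝ F) x (t • h)) h‖
        ≤ ‖fderiv ℝ F (x + t • h) - fderiv ℝ F x - fderiv ℝ (fderiv ℝ F) x (t • h)‖ * ‖h‖ :=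
          ContinuousLinearMap.le_opNorm _ _
      _ ≤ K * (t * ‖h‖) ^ 2 * ‖h‖ := by gcongr
      _ ≤ K * (1 * ‖h‖) ^ 2 * ‖h‖ := by
          have := ht.1; have := ht.2.le
          gcongr
      _ = K * ‖h‖ ^ 3 := by ring

end Taylor

section Alg

variable {n : ℕ}

lemma smul_decomp (u : E n) (ξ : ℂ) : ξ • u = ξ.re • u + ξ.im • (Complex.I • u) := by
  rw [← Complex.coe_smul, ← Complex.coe_smul, smul_smul, ← add_smul, Complex.re_add_im]

/-- The complex number representing `ξ ↦ Dρ_z(ξ u)`. -/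
noncomputable def kap (ρ : E n → ℝ) (u z : E n) : ℂ :=
  (fderiv ℝ ρ z u : ℂ) - Complex.I * (fderiv ℝ ρ z (Complex.I • u) : ℂ)

lemma fderiv_smul (ρ : E n → ℝ) (u z : E n) (ξ : ℂ) :
    fderiv ℝ ρ z (ξ • u) = (kap ρ u z * ξ).re := by
  rw [smul_decomp u ξ, map_add, map_smul, map_smul, kap]
  simp [Complex.mul_re, Complex.sub_re, Complex.sub_im]
  ring

lemma norm_kap_sub_le (ρ : E n → ℝ) (u z z' : E n) :
    ‖kap ρ u z - kap ρ u z'‖ ≤ 2 * (‖fderiv ℝ ρ z - fderiv ℝ ρ z'‖ * ‖u‖) := by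
  have e : kap ρ u z - kap ρ u z' = (((fderiv ℝ ρ z - fderiv ℝ ρ z') u : ℝ) : ℂ) -
      Complex.I * (((fderiv ℝ ρ z - fderiv ℝ ρ z') (Complex.I • u) : ℝ) : ℂ) := by
    simp only [kap, sub_apply]
    push_cast
    ring
  rw [e]
  refine (norm_sub_le _ _).trans ?_
  rw [norm_mul, Complex.norm_I, one_mul, Complex.norm_real, Complex.norm_real, two_mul]
  refine add_le_add (ContinuousLinearMap.le_opNorm _ _) ?_
  refine (ContinuousLinearMap.le_opNorm _ _).trans ?_
  rw [norm_smul, Complex.norm_I, one_mul]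

lemma norm_kap_le (ρ : E n → ℝ) (u z : E n) : ‖kap ρ u z‖ ≤ 2 * (‖fderiv ℝ ρ z‖ * ‖u‖) := by
  rw [kap]
  refine (norm_sub_le _ _).trans ?_
  rw [norm_mul, Complex.norm_I, one_mul, Complex.norm_real, Complex.norm_real, two_mul]
  refine add_le_add (ContinuousLinearMap.le_opNorm _ _) ?_
  refine (ContinuousLinearMap.le_opNorm _ _).trans ?_
  rw [norm_smul, Complex.norm_I, one_mul]

/-- Second order term along a complex line. -/
lemma bil (B : E n →L[ℝ] E n →L[ℝ] ℝ) (w : E n) (ξ : ℂ) :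
    B (ξ • w) (ξ • w) = ‖ξ‖ ^ 2 * ((B w w + B (Complex.I • w) (Complex.I • w)) / 2) +
      (ξ ^ 2 * ((((B w w - B (Complex.I • w) (Complex.I • w)) / 2 : ℝ) : ℂ) -
        Complex.I * (((B w (Complex.I • w) + B (Complex.I • w) w) / 2 : ℝ) : ℂ))).re := by
  rw [smul_decomp w ξ]
  simp only [map_add, map_smul, add_apply, smul_apply, smul_eq_mul]
  rw [← Complex.normSq_eq_norm_sq, Complex.normSq_apply]
  simp [Complex.mul_re, Complex.sub_re, Complex.sub_im, pow_two]
  ring

/-- The Levi form is homogeneous for complex multiples. -/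
lemma lev_smul (ρ : E n → ℝ) (z w : E n) (c : ℂ) : Lev ρ z (c • w) = ‖c‖ ^ 2 * Lev ρ z w := by
  unfold Lev
  set B := fderiv ℝ (fderiv ℝ ρ) z
  have h1 := bil B w c
  have h2 := bil B w (Complex.I * c)
  rw [smul_smul]
  rw [h1, h2, norm_mul, Complex.norm_I, one_mul, mul_pow, Complex.I_sq]
  simp only [neg_mul, one_mul, Complex.neg_re]
  ring

/-- A vector in the complex tangent directions at `z`. -/
noncomputable def ww (ρ : E n → ℝ) (N v z : E n) : E n := kap ρ N z • v - kap ρ v z • N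

lemma fderiv_ww (ρ : E n → ℝ) (N v z : E n) (ξ : ℂ) :
    fderiv ℝ ρ z (ξ • ww ρ N v z) = 0 := by
  rw [ww, smul_sub, smul_smul, smul_smul, map_sub, fderiv_smul, fderiv_smul, ← Complex.sub_re]
  have : kap ρ v z * (ξ * kap ρ N z) - kap ρ N z * (ξ * kap ρ v z) = 0 := by ring
  rw [this, Complex.zero_re]

end Alg

section Dom

variable {n : ℕ} {Ω : Set (E n)} {ρ : E n → ℝ} {p N v : E n}

lemma rho_eq_zero (hD : Dom n Ω ρ) (hp : p ∈ frontier Ω) : ρ p = 0 := by
  have hc : Continuous ρ := hD.smooth.continuous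
  apply le_antisymm
  · have h1 : p ∈ closure Ω := frontier_subset_closure hp
    have h2 : closure Ω ⊆ {x | ρ x ≤ 0} := by
      refine closure_minimal (fun x hx => ?_) (isClosed_le hc continuous_const)
      rw [hD.eq] at hx
      exact le_of_lt (show ρ x < 0 from hx)
    exact h2 h1
  · by_contra hlt
    push Not at hlt
    have h1 : p ∈ Ω := by rw [hD.eq]; exact hlt
    have h2 := hD.isOpen.inter_frontier_eq
    have : p ∈ Ω ∩ frontier Ω := ⟨h1, hp⟩
    rw [h2] at this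
    exact this

lemma mem_frontier (hD : Dom n Ω ρ) {z : E n} (hz : ρ z = 0) (hg : fderiv ℝ ρ z ≠ 0) :
    z ∈ frontier Ω := by
  rw [hD.isOpen.frontier_eq]
  constructor
  · by_contra hcl
    apply hg
    have hmin : IsLocalMin ρ z := by
      have : (closure Ω)ᶜ ∈ 𝓝 z := isClosed_closure.isOpen_compl.mem_nhds hcl
      filter_upwards [this] with x hx
      rw [hz]
      by_contra hlt
      push Not at hlt
      apply hx
      apply subset_closure
      rw [hD.eq]
      exact hlt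
    exact hmin.fderiv_eq_zero
  · rw [hD.eq]
    simp [hz]

lemma kap_N (hN : ‖N‖ = 1) (hg : ∀ w : E n, fderiv ℝ ρ p w = (inner ℂ N w : ℂ).re) :
    kap ρ N p = 1 := by
  rw [kap, hg, hg, inner_smul_right, inner_self_eq_norm_sq_to_K, hN]
  simp

lemma kap_v (hNv : (inner ℂ N v : ℂ) = 0)
    (hg : ∀ w : E n, fderiv ℝ ρ p w = (inner ℂ N w : ℂ).re) : kap ρ v p = 0 := by
  rw [kap, hg, hg, inner_smul_right, hNv]
  simp

lemma sub_mem (hN : ‖N‖ = 1) {ζ : ℂ} {c : ℝ} (hζ : ‖ζ‖ ≤ c) : p - ζ • N ∈ closedBall p c := by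
  rw [mem_closedBall, dist_eq_norm, sub_sub_cancel_left, norm_neg, norm_smul, hN, mul_one]
  exact hζ

/-- Near `p` the number `kap ρ N z` is close to one. -/
lemma kap_near (hD : Dom n Ω ρ) (hN : ‖N‖ = 1)
    (hg : ∀ w : E n, fderiv ℝ ρ p w = (inner ℂ N w : ℂ).re) :
    ∃ c : ℝ, 0 < c ∧ c ≤ 1 ∧ ∀ z : E n, ‖z - p‖ ≤ c → ‖kap ρ N z - 1‖ ≤ 1 / 4 := by
  obtain ⟨K, hK1, hK⟩ := exists_lip (F := fderiv ℝ ρ)
    (hD.smooth.fderiv_right (m := 1) (by norm_num)) p
  have hK0 : 0 < K := by linarith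
  refine ⟨1 / (8 * K), by positivity, ?_, fun z hz => ?_⟩
  · rw [div_le_one (by positivity)]; linarith
  have hz1 : z ∈ closedBall p 1 := by
    rw [mem_closedBall, dist_eq_norm]
    refine hz.trans ?_
    rw [div_le_one (by positivity)]; linarith
  have h1 := norm_kap_sub_le ρ N z p
  rw [kap_N hN hg, hN, mul_one] at h1
  have h2 := hK p (mem_closedBall_self zero_le_one) z hz1
  calc _ ≤ _ := h1
    _ ≤ 2 * (K * ‖z - p‖) := by gcongr
    _ ≤ 2 * (K * (1 / (8 * K))) := by gcongr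
    _ = 1 / 4 := by field_simp; norm_num

end Dom

end Slice

open Slice in
/-- (J8a) first order behaviour of `ρ` on the normal slice. -/
theorem sliceGeom : SliceGeom := by
  intro n Ω ρ hD p hp N hN hg
  obtain ⟨K, hK1, hK⟩ := exists_taylor1 (F := ρ) (hD.smooth.of_le (by norm_num)) p
  obtain ⟨c, hc0, hc1, hc⟩ := kap_near hD hN hg
  have hρp := rho_eq_zero hD hp
  have hp1 : p ∈ closedBall p 1 := mem_closedBall_self zero_le_one
  refine ⟨c / 2, K, by positivity, hK1, fun ζ hζ => ?_, fun ζ hζ => ?_⟩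
  · have h := hK p hp1 (p - ζ • N) (sub_mem hN (by linarith))
    rw [sub_sub_cancel_left, ← neg_smul, fderiv_smul, kap_N hN hg, hρp, one_mul, norm_smul,
      norm_neg, hN, mul_one, Complex.neg_re, sub_zero, Real.norm_eq_abs, sub_neg_eq_add] at h
    rw [← abs_neg]
    convert h using 2
    ring
  · refine ⟨kap ρ N (p - ζ • N), hc _ ?_, fun ξ hξ => ?_⟩
    · have := sub_mem (p := p) hN hζ.le
      rw [mem_closedBall, dist_eq_norm] at this
      linarith
    · have h := hK (p - ζ • N) (sub_mem hN (by linarith)) (p - (ζ + ξ) • N)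
        (sub_mem hN ((norm_add_le _ _).trans (by linarith)))
      have e : p - (ζ + ξ) • N - (p - ζ • N) = (-ξ) • N := by
        rw [add_smul, neg_smul]; abel
      rw [e, fderiv_smul, norm_smul, norm_neg, hN, mul_one, mul_neg, Complex.neg_re,
        sub_neg_eq_add, Real.norm_eq_abs] at h
      rw [← abs_neg]
      convert h using 2
      ring

end SqzC4
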