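import Pool.Agent.SqzC4.Boundary
import Pool.Agent.SqzC4.Final
import Pool.Agent.SqzC4.Osgood
import Pool.Agent.SqzC4.HopfFinal
import Pool.Agent.SqzC4.Localization
import Pool.Agent.SqzC4.Chains
import Pool.Agent.SqzC4.Hops
import Pool.Agent.SqzC4.LowerBound
import Pool.Agent.SqzC4.VFun
import Pool.Agent.SqzC4.Slice
import Pool.Agent.SqzC4.SliceV
import Pool.Agent.SqzC4.ExistsP
import Pool.Agent.SqzC4.HolDeriv

/-!
# The theorem for domains with `C^4` boundary, pointwise form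
-/

set_option autoImplicit false

open Metric Set Filter Topology

namespace SqzC4

/-- From the limit of the squeezing function to maps. -/
theorem maps_of_tendsto {n : ℕ} {Ω : Set (E n)} {p : E n}
    (h : Tendsto (squeezing Ω) (𝓝[Ω] p) (𝓝 1)) :
    ∀ ε : ℝ, 0 < ε → ∃ δ : ℝ, 0 < δ ∧ ∀ z ∈ Ω, dist z p < δ →
      ∃ f : E n → E n, DifferentiableOn ℂ f Ω ∧ Set.InjOn f Ω ∧
        f '' Ω ⊆ Metric.ball 0 1 ∧ f z = 0 ∧ Metric.ball 0 (1 - ε) ⊆ f '' Ω := by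
  intro ε hε
  set ε' := min ε (1 / 2) with hε'
  have hε'0 : 0 < ε' := lt_min hε (by norm_num)
  have hε'1 : ε' ≤ 1 / 2 := min_le_right _ _
  have hε'2 : ε' ≤ ε := min_le_left _ _
  have h1 : ∀ᶠ z in 𝓝[Ω] p, 1 - ε' < squeezing Ω z :=
    h.eventually_const_lt (by linarith)
  rw [eventually_nhdsWithin_iff, Metric.eventually_nhds_iff] at h1
  obtain ⟨δ, hδ, h2⟩ := h1
  refine ⟨δ, hδ, fun z hz hzp => ?_⟩
  have h3 := h2 hzp hz
  have hne : {s : ℝ | ∃ f : E n → E n, DifferentiableOn ℂ f Ω ∧ InjOn f Ω ∧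
      MapsTo f Ω (ball 0 1) ∧ f z = 0 ∧ s = squeezeOf Ω f}.Nonempty := by
    by_contra hcon
    rw [not_nonempty_iff_eq_empty] at hcon
    rw [squeezing, hcon, Real.sSup_empty] at h3
    linarith
  obtain ⟨s, ⟨f, hf1, hf2, hf3, hf4, rfl⟩, hs⟩ := exists_lt_of_lt_csSup hne h3
  have hne2 : {r : ℝ | 0 < r ∧ ball (0 : E n) r ⊆ f '' Ω}.Nonempty := by
    by_contra hcon
    rw [not_nonempty_iff_eq_empty] at hcon
    rw [squeezeOf, hcon, Real.sSup_empty] at hs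
    linarith
  obtain ⟨r, ⟨_, hr2⟩, hr⟩ := exists_lt_of_lt_csSup hne2 hs
  refine ⟨f, hf1, hf2, ?_, hf4, (ball_subset_ball (by linarith)).trans hr2⟩
  rintro _ ⟨x, hx, rfl⟩
  exact hf3 hx

theorem main {n : ℕ} {Ω : Set (E n)} (ho : IsOpen Ω) (hc : IsConnected Ω)
    (hb : Bornology.IsBounded Ω) (hC : BoundaryOfClass 4 Ω)
    (hpsc : ∀ q ∈ frontier Ω, PseudoconvexAt Ω q) (p : E n) (hp : p ∈ frontier Ω)
    (hS : (NoDisc Ω p ∧ Tendsto (squeezing Ω) (𝓝[Ω] p) (𝓝 1)) ∨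
      ∀ q ∈ frontier Ω, NoDisc Ω q → Tendsto (squeezing Ω) (𝓝[Ω] q) (𝓝 1)) :
    StrictlyPseudoconvexAt Ω p := by
  obtain ⟨ρ, hρs, hρΩ, hρg⟩ := exists_global ho hC
  have hLD : ∀ q ∈ frontier Ω, LocDef 2 Ω q univ ρ := fun q hq =>
    ⟨isOpen_univ, mem_univ q, (hρs.of_le (by norm_num)).contDiffOn, hρg q hq,
      fun x _ => by rw [hρΩ]; rfl⟩
  have hDom : Dom n Ω ρ := by
    refine ⟨ho, hc, hb, hρs, hρΩ, hρg, ?_⟩
    intro q hq w hw1 hw2
    obtain ⟨U, ρ', hU, hlev⟩ := hpsc q hq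
    obtain ⟨c, hc0, hlin, hL⟩ := (hLD q hq).compare hU ho hq
    have := hlev w (by rw [hlin, hw1, mul_zero]) (by rw [hlin, hw2, mul_zero])
    rw [hL w hw1 hw2] at this
    exact nonneg_of_mul_nonneg_right this hc0
  have hfin : ∀ q ∈ frontier Ω, NoDisc Ω q → Tendsto (squeezing Ω) (𝓝[Ω] q) (𝓝 1) →
      ∀ v : E n, ‖v‖ = 1 → fderiv ℝ ρ q v = 0 → fderiv ℝ ρ q (Complex.I • v) = 0 →
      Lev ρ q v ≠ 0 := by
    intro q hq hnd hlim v hv hv1 hv2 hv3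
    exact final_of hopfLemma
      (lowerBound harnackChain harnackHalf chainCalc)
      (hopsIneq (ballChain discChain) harnackChain chainCalc)
      discChain chainConn chainCalc sliceGeom (sliceV vUpper)
      vChart holDeriv osgoodInv (localization hopfLemma) n Ω ρ hDom q hq hnd
      (maps_of_tendsto hlim) v hv hv1 hv2 hv3
  intro U ρ' hU w hw0 hw1 hw2
  obtain ⟨c, hc0, hlin, hL⟩ := (hLD p hp).compare hU ho hp
  have e1 : fderiv ℝ ρ p w = 0 := by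
    rw [hlin] at hw1
    exact (mul_eq_zero.1 hw1).resolve_left hc0.ne'
  have e2 : fderiv ℝ ρ p (Complex.I • w) = 0 := by
    rw [hlin] at hw2
    exact (mul_eq_zero.1 hw2).resolve_left hc0.ne'
  rw [hL w e1 e2]
  refine mul_pos hc0 ?_
  by_contra hcon
  rcases hS with ⟨hnd, hlim⟩ | hS
  · have hLev : Lev ρ p w = 0 := le_antisymm (not_lt.1 hcon) (hDom.levi p hp w e1 e2)
    obtain ⟨v, hv, hv1, hv2, hv3⟩ := exists_unit_null ρ p w hw0 e1 e2 hLev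
    exact hfin p hp hnd hlim v hv hv1 hv2 hv3
  · obtain ⟨q, hq, v, hv, hv1, hv2, hv3, hnd⟩ := existsP n Ω ρ hDom p hp w hw0 e1 e2 hcon
    exact hfin q hq hnd (hS q hq hnd) v hv hv1 hv2 hv3

end SqzC4
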