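import Mathlib

/-!
# Squeezing function tending to one (MP_ab90d5_an): the definitions used in the statement

Pointwise theorem for bounded pseudoconvex domains with `C^4` boundary.
-/

set_option autoImplicit false

open Metric Set

namespace SqzC4

/-- `ℂⁿ` with its Hermitian norm. -/
abbrev E (n : ℕ) := EuclideanSpace ℂ (Fin n)

/-- The (real) Levi form `D²ρ_z(w,w) + D²ρ_z(iw,iw)`, which is four times
`∑ ∂²ρ/∂z_j∂z̄_k(z) w_j w̄_k`. -/
noncomputable def Lev {n : ℕ} (ρ : E n → ℝ) (z w : E n) : ℝ :=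
  fderiv ℝ (fderiv ℝ ρ) z w w + fderiv ℝ (fderiv ℝ ρ) z (Complex.I • w) (Complex.I • w)

/-- `ρ` is a local defining function of class `C^k` for `Ω` at the point `p`, on the open set `U`:
`p ∈ U`, `ρ` is of class `C^k` on `U`, `Ω ∩ U = {x ∈ U | ρ x < 0}` and `dρ ≠ 0` at `p`. -/
structure LocDef {n : ℕ} (k : ℕ) (Ω : Set (E n)) (p : E n) (U : Set (E n)) (ρ : E n → ℝ) :
    Prop where
  isOpen : IsOpen U
  mem : p ∈ U
  smooth : ContDiffOn ℝ k ρ U
  grad : fderiv ℝ ρ p ≠ 0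
  iff : ∀ x ∈ U, x ∈ Ω ↔ ρ x < 0

/-- The boundary of `Ω` is of class `C^k`: there is a local defining function of class `C^k` at
each boundary point. -/
def BoundaryOfClass {n : ℕ} (k : ℕ) (Ω : Set (E n)) : Prop :=
  ∀ p ∈ frontier Ω, ∃ (U : Set (E n)) (ρ : E n → ℝ), LocDef k Ω p U ρ

/-- (Levi) pseudoconvexity at the boundary point `p`: for some `C^2` local defining function at
`p` the Levi form is nonnegative on the complex tangent space. -/
def PseudoconvexAt {n : ℕ} (Ω : Set (E n)) (p : E n) : Prop :=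
  ∃ (U : Set (E n)) (ρ : E n → ℝ), LocDef 2 Ω p U ρ ∧
    ∀ w : E n, fderiv ℝ ρ p w = 0 → fderiv ℝ ρ p (Complex.I • w) = 0 → 0 ≤ Lev ρ p w

/-- Strict pseudoconvexity at the boundary point `p`: for every `C^2` local defining function at
`p` the Levi form is positive definite on the complex tangent space. -/
def StrictlyPseudoconvexAt {n : ℕ} (Ω : Set (E n)) (p : E n) : Prop :=
  ∀ (U : Set (E n)) (ρ : E n → ℝ), LocDef 2 Ω p U ρ →
    ∀ w : E n, w ≠ 0 → fderiv ℝ ρ p w = 0 → fderiv ℝ ρ p (Complex.I • w) = 0 → 0 < Lev ρ p w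

/-- `S_{Ω,f} = sup {r > 0 : B_r(0) ⊆ f(Ω)}`. -/
noncomputable def squeezeOf {n : ℕ} (Ω : Set (E n)) (f : E n → E n) : ℝ :=
  sSup {r : ℝ | 0 < r ∧ ball 0 r ⊆ f '' Ω}

/-- The squeezing function `S_Ω(z)`: the supremum of `S_{Ω,f}` over all injective holomorphic
`f : Ω → 𝔹ⁿ` with `f z = 0`. -/
noncomputable def squeezing {n : ℕ} (Ω : Set (E n)) (z : E n) : ℝ :=
  sSup {s : ℝ | ∃ f : E n → E n, DifferentiableOn ℂ f Ω ∧ InjOn f Ω ∧ MapsTo f Ω (ball 0 1) ∧
    f z = 0 ∧ s = squeezeOf Ω f}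

/-- No non-constant holomorphic disc in the boundary of `Ω` passes through `p`: every holomorphic
map `φ` from the unit disc to `frontier Ω` with `φ 0 = p` is constant. -/
def NoDisc {n : ℕ} (Ω : Set (E n)) (p : E n) : Prop :=
  ∀ φ : ℂ → E n, DifferentiableOn ℂ φ (ball 0 1) → MapsTo φ (ball 0 1) (frontier Ω) →
    φ 0 = p → ∀ s ∈ ball (0 : ℂ) 1, φ s = p

end SqzC4
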